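import Pool.Agent.Run7.h696.CF.FinC
import Pool.Agent.Run7.h225.HG.Tup
import Pool.Agent.Run7.h696.CF.Ev
import Pool.Agent.Run7.h696.CP.All

/-!
# All hyperlogarithms and periods of hypergeometric motives at correlated fibres: for almost all `t` there are no relations of
bounded degree except those of the single families

Let `α_1, …, α_n` be rational numbers which are not integers with the sum `0`, `n ≥ 2`, `θ = z d/dz` and
`Q(x) = ∏_j (x + α_j)`. We consider the hypergeometric operators `θ^n - z Q(θ)`. The exponents at `z = 0` are `0, …, 0`, so the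
monodromy at `0` is maximally unipotent, the exponents at infinity are the `α_j`, and the monodromy at `z = 1` is unipotent.
The Frobenius method gives the basis `f_0, …, f_{n-1}` of solutions. The periods of the fibres of the family of
hypergeometric motives near `z = 0` are linear combinations of the numbers `(θ^i f_j)(z)` with constant coefficients.

For finitely many such equations `e_j` and linear polynomials `ℓ_j(t) = a_j t + b_j` over `ℚ` we consider the `j`-th family at
the fibre `1 / ℓ_j(t)`, for example one family at the fibres `1 / t, 1 / (t - 1), …, 1 / (t - s)`. The fibres are correlated: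
the points of the product family lie on one rational curve in the product of the bases. Let moreover `c_1, …, c_m` be
different integers, not `0`, and `τ` an integer. The iterated integrals from `0` of the forms `dz / z` and `dz / (1 - c_s z)`
are the hyperlogarithms `L_w(z)`; at `z = 1 / (t - τ)` they are iterated integrals from infinity to `t` with singular points
`τ, τ + c_1, …, τ + c_m`, that is periods of the mixed Tate motives of the fundamental group of the line without these points.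

We prove that for almost all tuples `(t_i)` of positive integers all relations of bounded degree and length, over any
finite dimensional space of constants, between the logarithms of the `t_i - τ_i`, ALL hyperlogarithms at `1 / (t_i - τ_i)` and
the entries of the period matrices of ALL the families at ALL the fibres `1 / ℓ_ij(t_i)` are the obvious ones: by the shuffle
relations every polynomial in these numbers can be written as a sum of products `P_u ∏_i L_{u_i}(1 / (t_i - τ_i))`, `P_u` a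
polynomial in the logarithms and in the periods of the hypergeometric motives; if it vanishes then every `P_u` vanishes
because of the determinants and the bilinear relations of the self-dual equations.

The condition on the equations and polynomials is that if `ℓ_i` and `ℓ_j` have the value `1` at the same point then the
exponents at infinity of `e_i` are not those of `e_j` or of its dual modulo `ℤ`, and that there is an integer `τ` with
`ℓ_j(τ) ≤ 0` for all `j`. If all `a_j` are positive, then there is always such a `τ`.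

Proof of the functional part (`Pool/Agent/Run7/h696/CF`): the pull-back of the `j`-th system has a transvection as local
monodromy at the point with `ℓ_j = 1` and no other singular point between this point and `t = ∞` on the side of `τ` where it
lies. The local monodromy at the singular points with the largest distance from `τ` and their conjugates by the monodromy
at `∞` generate the product of the groups of the families which are singular there; so these families may be replaced by
constants in all relations, and one goes on with the remaining ones. The hyperlogarithms (`Pool/Agent/Run7/h696/CP`): if a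
combination of the logarithms of the `1 - c_s z` is in the field generated by all the solutions, then the group acts on it by
addition of constants; as a transvection is conjugate to its fourth power, this action is trivial, so the combination is a
rational function, which is impossible. Hence all hyperlogarithms are linearly independent over this field.
-/

set_option autoImplicit false

open PowerSeries Pool.Agent.Y119.HZ Pool.Agent.Run7.h225.HG Pool.Agent.Run7.h696.CF Run7.h893.HO

namespace Pool.Agent.Results.MP_1eadae_ag.CorrelatedMixedMotives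

/-- The words in the letters `none` (the form `dz / z`) and `some s` (the form `dz / (1 - c_s z)`, `s` in `Fin m`) of length
at most `W` which do not end with `none`. -/
abbrev Word (m W : ℕ) : Type := {w : List (Option (Fin m)) // w.length ≤ W ∧ w.getLast? ≠ some none}

/-- there are finitely many -/
noncomputable instance (m W : ℕ) : Fintype (Word m W) := inferInstanceAs (Fintype (Pool.Agent.Run7.h696.CP.Wd m W))

/-- The coefficients of the hyperlogarithms `L_w(z) = ∑_k coef w k z^k`: `L_[] = 1`, `L_w(0) = 0` if `w` is not empty,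
`d L_(none w) = L_w dz / z` and `d L_(some s w) = L_w dz / (1 - c_s z)`. -/
def coef {m : ℕ} (c : Fin m → ℤ) : List (Option (Fin m)) → ℕ → ℚ
  | [], k => if k = 0 then 1 else 0
  | none :: w, k => coef c w k / k
  | some s :: w, k => (∑ l ∈ Finset.range k, (c s : ℚ) ^ (k - 1 - l) * coef c w l) / k

/-- the hyperlogarithm `L_w(z)`, `|c_s z| < 1` -/
noncomputable def hlog {m : ℕ} (c : Fin m → ℤ) (w : List (Option (Fin m))) (z : ℂ) : ℂ := ∑' k : ℕ, (coef c w k : ℂ) * z ^ k

/-- A hypergeometric equation `θ^n f = z ∏_j (θ + α_j) f`. -/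
structure Eqn where
  n : ℕ
  α : Fin n → ℚ

/-- the dual equation (the exponents at infinity are `-α_j`) -/
def Eqn.dual (e : Eqn) : Eqn := ⟨e.n, fun j => -e.α j⟩

/-- the multiset of the fractional parts of the `α_j` -/
def Eqn.frac (e : Eqn) : Multiset ℚ := Multiset.map (fun j => Int.fract (e.α j)) Finset.univ.val

/-- the polynomial `Q = ∏_j (x + α_j)` -/
noncomputable def Eqn.poly (e : Eqn) : Polynomial ℚ := ∏ j, (Polynomial.X + Polynomial.C (e.α j))

/-- `Q(-x) = Q(x)` -/
def Eqn.Symplectic (e : Eqn) : Prop := e.poly.comp (-Polynomial.X) = e.poly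

/-- The order is at least two, the exponents at infinity are not integers, their sum is `0`, and either the fractional parts
of the `α_j` and of the `-α_j` are different multisets or `Q(-x) = Q(x)`. -/
def Eqn.Admissible (e : Eqn) : Prop :=
  2 ≤ e.n ∧ (∀ j, ∀ a : ℤ, e.α j ≠ a) ∧ ∑ j, e.α j = 0 ∧ (e.frac ≠ e.dual.frac ∨ e.Symplectic)

/-- A list of equations `e_j`, linear polynomials `ℓ_j(t) = a_j t + b_j` and an integer `τ`: the equations are admissible,
`a_j ≠ 0` and `ℓ_j(τ) ≤ 0`, and if two polynomials have the value `1` at the same point, then the exponents at infinity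
of the two equations, and of one of them and of the dual of the other one, are different modulo `ℤ`. -/
def Good {r : ℕ} (e : Fin r → Eqn) (a b : Fin r → ℚ) (τ : ℤ) : Prop :=
  (∀ j, (e j).Admissible ∧ a j ≠ 0 ∧ a j * τ + b j ≤ 0) ∧
  ∀ i j, i ≠ j → (1 - b i) / a i = (1 - b j) / a j → (e i).frac ≠ (e j).frac ∧ (e i).frac ≠ (e j).dual.frac

/-- the power series `k + ε` in the variable `ε` -/
noncomputable def shift (k : ℕ) : PowerSeries ℚ := C (k : ℚ) + X

/-- `a_k(ε) = ∏_{l < k} Q(l + ε) / (l + 1 + ε)^n`. The series `∑_k a_k(ε) z^(k + ε)` solves the equation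
`(θ^n - z Q(θ)) f = ε^n z^ε`, hence its coefficients `f_j` at `ε^j` with `j < n` are solutions of the homogeneous
equation. -/
noncomputable def Eqn.frob (e : Eqn) (k : ℕ) : PowerSeries ℚ :=
  ∏ l ∈ Finset.range k, (Polynomial.aeval (shift l) e.poly * ((shift (l + 1))⁻¹) ^ e.n)

/-- The matrix with the entries `(θ^i f_j)(z)`, `0 < |z| < 1`, where `f_j(z)` is the coefficient of `ε^j` in the series
`∑_k a_k(ε) z^(k + ε)`, `z^ε = ∑_l (log z)^l ε^l / l!`, with the principal value of the logarithm. -/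
noncomputable def Eqn.Y (e : Eqn) (z : ℂ) : Matrix (Fin e.n) (Fin e.n) ℂ :=
  Matrix.of fun i j => ∑ l ∈ Finset.range ((j : ℕ) + 1), (Complex.log z ^ l / (l.factorial : ℂ)) *
    ∑' k : ℕ, ((coeff ((j : ℕ) - l) (shift k ^ (i : ℕ) * e.frob k) : ℚ) : ℂ) * z ^ k

/-- The matrix of the alternating form: the entry `(i, j)` is `(-1)^i q_{i+j+1-n}` for `i + j + 1 ≥ n` and `0`
otherwise, where `q_l` are the coefficients of `Q`. -/
noncomputable def Eqn.J (e : Eqn) : Matrix (Fin e.n) (Fin e.n) ℂ :=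
  Matrix.of fun i j => if e.n ≤ (i : ℕ) + j + 1 then (((-1) ^ (i : ℕ) * e.poly.coeff (i + j + 1 - e.n) : ℚ) : ℂ) else 0

/-- The group of the equation: `det X = 1`, and `Xᵀ J X = J` if `Q(-x) = Q(x)`. -/
def Eqn.G (e : Eqn) : Set (Matrix (Fin e.n) (Fin e.n) ℂ) :=
  {X | X.det = 1 ∧ (e.Symplectic → X.transpose * e.J * X = e.J)}

/-- the point with the coordinates `l_i` and the entries of the matrices `X_ij` -/
def point {k : ℕ} {r : Fin k → ℕ} {e : ∀ i, Fin (r i) → Eqn} (l : Fin k → ℂ)
    (X : ∀ i j, Matrix (Fin (e i j).n) (Fin (e i j).n) ℂ) :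
    (Σ i : Fin k, Option (Σ j : Fin (r i), Fin (e i j).n × Fin (e i j).n)) → ℂ
  | ⟨i, none⟩ => l i
  | ⟨i, some ⟨j, p⟩⟩ => X i j p.1 p.2

/-- Some `t_i - τ_i` is at most `0` or at most `|c_is|` for some `s`, or some `ℓ_ij(t_i)` has absolute value at most `1`. -/
def Small {k : ℕ} {r m : Fin k → ℕ} (a b : ∀ i, Fin (r i) → ℚ) (τ : Fin k → ℤ) (c : ∀ i, Fin (m i) → ℤ)
    (t : Fin k → ℕ) : Prop :=
  ∃ i, (t i : ℤ) ≤ τ i ∨ (∃ s, (t i : ℤ) - τ i ≤ |c i s|) ∨ ∃ j, |a i j * t i + b i j| ≤ 1

/-- There is a relation `∑_u P_u(log (t_i - τ_i), Y_ij(1 / ℓ_ij(t_i)) Ω_ij) ∏_i L_{u_i}(1 / (t_i - τ_i)) = 0`, `u` runs over the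
tuples of words of length `≤ W` in the letters `0` and `c_is`, the `P_u` are polynomials of degree `≤ δ` with coefficients in
`V`, such that some `P_u` does not vanish identically on the set of the points with arbitrary coordinates `l_i` and the
matrices `X_ij Ω_ij` with `X_ij` in the group of `e_ij`. -/
def Exceptional (δ W : ℕ) (V : Submodule ℚ ℂ) {k : ℕ} {r m : Fin k → ℕ} (e : ∀ i, Fin (r i) → Eqn)
    (a b : ∀ i, Fin (r i) → ℚ) (τ : Fin k → ℤ) (c : ∀ i, Fin (m i) → ℤ)
    (Ω : ∀ i j, Matrix (Fin (e i j).n) (Fin (e i j).n) ℂ) (t : Fin k → ℕ) : Prop :=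
  ∃ P : (∀ i, Word (m i) W) → MvPolynomial (Σ i : Fin k, Option (Σ j : Fin (r i), Fin (e i j).n × Fin (e i j).n)) ℂ,
    (∀ u, (P u).totalDegree ≤ δ) ∧ (∀ u s, (P u).coeff s ∈ V) ∧
    ∑ u, MvPolynomial.aeval (point (fun i => ((Real.log ((t i : ℝ) - (τ i : ℝ)) : ℝ) : ℂ)) fun i j =>
      (e i j).Y (1 / ((a i j : ℂ) * (t i : ℂ) + (b i j : ℂ))) * Ω i j) (P u) *
      ∏ i, hlog (c i) (u i).1 (1 / ((t i : ℂ) - (τ i : ℂ))) = 0 ∧
    ∃ (u : ∀ i, Word (m i) W) (l : Fin k → ℂ) (X : ∀ i j, Matrix (Fin (e i j).n) (Fin (e i j).n) ℂ),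
      (∀ i j, X i j ∈ (e i j).G) ∧ MvPolynomial.aeval (point l fun i j => X i j * Ω i j) (P u) ≠ 0

theorem coef_eq {m : ℕ} (c : Fin m → ℤ) (w : List (Option (Fin m))) (k : ℕ) :
    coef c w k = Pool.Agent.Run7.h696.CP.co c w k := by
  induction w generalizing k with
  | nil => rfl
  | cons x w ih =>
    rcases x with _ | s
    · show coef c w k / k = Pool.Agent.Run7.h696.CP.co c w k / k
      rw [ih]
    · show (∑ l ∈ Finset.range k, (c s : ℚ) ^ (k - 1 - l) * coef c w l) / k =
        (∑ l ∈ Finset.range k, (c s : ℚ) ^ (k - 1 - l) * Pool.Agent.Run7.h696.CP.co c w l) / k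
      simp only [ih]

theorem hlog_eq {m : ℕ} (c : Fin m → ℤ) (w : List (Option (Fin m))) (s : ℕ) :
    hlog c w (1 / (s : ℂ)) = ((Pool.Agent.Y113.ev (s : ℝ) (Pool.Agent.Run7.h696.CP.hy c w) : ℝ) : ℂ) := by
  unfold hlog Pool.Agent.Y113.ev Pool.Agent.Run7.h696.CP.hy
  rw [Complex.ofReal_tsum]
  refine tsum_congr fun k => ?_
  rw [PowerSeries.coeff_mk, coef_eq]
  push_cast
  rfl

theorem frob_eq (e : Eqn) (k : ℕ) : e.frob k = Pool.Agent.Y119.HY.aq e.n e.poly k := rfl

theorem J_eq (e : Eqn) : e.J = Pool.Agent.Y119.HY.cm (Pool.Agent.Y119.HY.Jm e.n e.poly) := by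
  ext i j
  rw [Pool.Agent.Y119.HY.cm_apply]
  unfold Eqn.J Pool.Agent.Y119.HY.Jm
  rw [Matrix.of_apply, Matrix.of_apply]
  split_ifs
  · rfl
  · simp

theorem Y_eq (e : Eqn) (z : ℂ) : e.Y z = Pool.Agent.Y119.HY.Hf (Pool.Agent.Y119.HY.Hc e.n e.poly) z *
    Pool.Agent.Y119.HY.E (Pool.Agent.Y119.HY.cm (Pool.Agent.Y119.HY.Am e.n)) (Complex.log z) := by
  ext i j
  unfold Eqn.Y
  rw [Matrix.of_apply, Matrix.mul_apply]
  have hE : ∀ c : Fin e.n, Pool.Agent.Y119.HY.E (Pool.Agent.Y119.HY.cm (Pool.Agent.Y119.HY.Am e.n))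
      (Complex.log z) c j = ∑ l ∈ Finset.range e.n,
        if (j : ℕ) = c + l then Complex.log z ^ l / (l.factorial : ℂ) else 0 := by
    intro c
    unfold Pool.Agent.Y119.HY.E
    rw [Matrix.sum_apply]
    refine Finset.sum_congr rfl fun l _ => ?_
    rw [Matrix.smul_apply, ← Pool.Agent.Y119.HY.cm_pow, Pool.Agent.Y119.HY.cm_apply, Pool.Agent.Y119.HY.Am_pow, smul_eq_mul]
    split_ifs
    · push_cast
      rw [mul_one]
    · simp
  simp only [hE, Finset.mul_sum]
  rw [Finset.sum_comm]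
  have hsub : Finset.range ((j : ℕ) + 1) ⊆ Finset.range e.n := by
    intro l hl
    rw [Finset.mem_range] at hl ⊢
    have := j.2
    omega
  refine Finset.sum_subset_zero_on_sdiff hsub (fun l hl => ?_) fun l hl => ?_
  · rw [Finset.mem_sdiff, Finset.mem_range, Finset.mem_range] at hl
    refine Finset.sum_eq_zero fun c _ => ?_
    rw [if_neg (by omega), mul_zero]
  · rw [Finset.mem_range] at hl
    have hj := j.2
    rw [Finset.sum_eq_single (⟨(j : ℕ) - l, by omega⟩ : Fin e.n)]
    · rw [if_pos (by simp only; omega), mul_comm]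
      congr 1
    · intro c _ hc
      rw [if_neg, mul_zero]
      intro h
      apply hc
      apply Fin.ext
      simp only
      omega
    · intro h
      exact absurd (Finset.mem_univ _) h

theorem point_eq {k : ℕ} {r : Fin k → ℕ} {e : ∀ i, Fin (r i) → Eqn} (l : Fin k → ℂ)
    (X : ∀ i j, Matrix (Fin (e i j).n) (Fin (e i j).n) ℂ) : point l X = pj (n := fun i j => (e i j).n) l X := by
  funext v
  obtain ⟨i, _ | ⟨j, p⟩⟩ := v
  · rfl
  · rfl

theorem quad {e : Eqn} (he : e.Admissible) : Run7.h893.HO.QG e.n e.poly := QG_QA he.1 (nonint he.2.1)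

theorem dat {r : ℕ} {e : Fin r → Eqn} {a b : Fin r → ℚ} {τ : ℤ} (he : Good e a b τ) {L : ℝ} (hL : 0 < L)
    (h : ∀ j, |((1 / a j : ℚ) : ℝ)| + |((-b j / a j - τ : ℚ) : ℝ)| ≤ L) :
    DatL (fun j => (e j).n) (fun j => (e j).poly) (fun j => ((-b j / a j - τ : ℚ) : ℝ)) (fun j => ((1 / a j : ℚ) : ℝ)) L where
  q := fun j => quad (he.1 j).1
  q' := fun j => by
    show Run7.h893.HO.QG _ (dq _ (QA (e j).α))
    rw [dq_QA]
    exact QG_QA (he.1 j).1.1 (nonint' (he.1 j).1.2.1)
  tr := fun j => (QA_coeff (by have := (he.1 j).1.1; omega) (e j).α).trans (he.1 j).1.2.2.1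
  ty := fun j => by
    rcases (he.1 j).1.2.2.2 with h | h
    · refine Or.inr fun h2 => h ?_
      have h3 : RatEq (QA (e j).α) (dq (e j).n (QA (e j).α)) := h2
      rw [dq_QA] at h3
      exact RatEq_QA h3
    · exact Or.inl (QDeven (quad (he.1 j).1) h)
  c0 := fun j => by
    have h2 : (1 / a j : ℚ) ≠ 0 := one_div_ne_zero (he.1 j).2.1
    exact_mod_cast h2
  gc := fun j => by
    have h1 := par_gc (he.1 j).2.2
    exact_mod_cast h1
  L0 := hL
  cL := h
  sep := fun i j hij hc _ => by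
    have h1 : (1 / a i + (-b i / a i - τ) : ℚ) = 1 / a j + (-b j / a j - τ) := by exact_mod_cast hc
    rw [par_s, par_s] at h1
    have h2 : (1 - b i) / a i = (1 - b j) / a j := by linarith
    obtain ⟨h3, h4⟩ := he.2 i j hij h2
    refine ⟨fun h => h3 (RatEq_QA h), fun h => h4 ?_⟩
    have h5 : RatEq (QA (e i).α) (dq (e j).n (QA (e j).α)) := h
    rw [dq_QA] at h5
    exact RatEq_QA h5

theorem G_eq {e : Eqn} (he : e.Admissible) : e.G = Gp e.n e.poly := by
  ext X
  unfold Eqn.G Gp
  rw [J_eq]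
  refine and_congr_right fun _ => ⟨fun h h2 => h ?_, fun h h2 => h ?_⟩
  · exact evenQD h2
  · exact QDeven (quad he) h2

/-- Let `e_i`, `1 ≤ i ≤ k`, be lists of hypergeometric equations `e_ij`, `ℓ_ij(t) = a_ij t + b_ij` linear polynomials and
`τ_i` integers which form good lists, and `c_i` lists of pairwise different integers `c_is ≠ 0`. Then the matrices
`Y_ij(z)` are in the groups of the equations for `|z| < 1`, and for
all `δ`, `W` and `D` there are `κ > 0` and `C` such that for every `ℚ`-space `V` of complex numbers of dimension `≤ D`, all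
complex matrices `Ω_ij` and every box `∏_i (x_i, x_i + N]` with `x_i ≥ 1` the following holds for all but
`C N^(k-1) ∑_i (1 + N / (x_i + N)^κ)` integral points `t` of the box: `t_i - τ_i > 0`, `t_i - τ_i > |c_is|` and
`|ℓ_ij(t_i)| > 1` for all `i`, `s`, `j`, and if
`∑_u P_u(log (t_i - τ_i), Y_ij(1 / ℓ_ij(t_i)) Ω_ij) ∏_i L_{u_i}(1 / (t_i - τ_i)) = 0` for polynomials `P_u` of degree `≤ δ` with
coefficients in `V`, the sum over the tuples `u` of words of length `≤ W` in the letters `0` and `c_is`, then every `P_u`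
vanishes identically on the set of the points with arbitrary coordinates in place of the `log (t_i - τ_i)` and the
matrices `X_ij Ω_ij` with `X_ij` in the group of `e_ij`. -/
theorem result (k : ℕ) (r m : Fin k → ℕ) (e : ∀ i, Fin (r i) → Eqn) (a b : ∀ i, Fin (r i) → ℚ) (τ : Fin k → ℤ)
    (c : ∀ i, Fin (m i) → ℤ) (he : ∀ i, Good (e i) (a i) (b i) (τ i)) (hc0 : ∀ i s, c i s ≠ 0)
    (hci : ∀ i, Function.Injective (c i)) :
    (∀ i j, ∀ z : ℂ, ‖z‖ < 1 → (e i j).Y z ∈ (e i j).G) ∧
    ∀ δ W D : ℕ, ∃ κ C : ℝ, 0 < κ ∧ ∀ V : Submodule ℚ ℂ, Module.Finite ℚ V → Module.finrank ℚ V ≤ D →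
      ∀ (Ω : ∀ i j, Matrix (Fin (e i j).n) (Fin (e i j).n) ℂ) (x : Fin k → ℕ) (N : ℕ), (∀ i, 1 ≤ x i) → 1 ≤ N →
      (({t : Fin k → ℕ | (∀ i, x i < t i ∧ t i ≤ x i + N) ∧
        (Small a b τ c t ∨ Exceptional δ W V e a b τ c Ω t)}.ncard : ℕ) : ℝ) ≤
        C * (N : ℝ) ^ (k - 1) * ∑ i, (1 + N / ((x i : ℝ) + N) ^ κ) := by
  classical
  -- the radius
  set L : ℕ := 1 + (∑ i, ∑ s, (c i s).natAbs) + ∑ i, ∑ j, ⌈|(1 / a i j : ℚ)| + |(-b i j / a i j - τ i : ℚ)|⌉₊ with hLd
  have hcL : ∀ i s, |c i s| ≤ (L : ℤ) := by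
    intro i s
    have h1 : (c i s).natAbs ≤ ∑ s, (c i s).natAbs :=
      Finset.single_le_sum (f := fun s => (c i s).natAbs) (fun _ _ => Nat.zero_le _) (Finset.mem_univ s)
    have h2 : ∑ s, (c i s).natAbs ≤ ∑ i, ∑ s, (c i s).natAbs :=
      Finset.single_le_sum (f := fun i => ∑ s, (c i s).natAbs) (fun _ _ => Nat.zero_le _) (Finset.mem_univ i)
    rw [← Int.natCast_natAbs]
    exact_mod_cast (by omega : (c i s).natAbs ≤ L)
  have hLle : ∀ i j, |(1 / a i j : ℚ)| + |(-b i j / a i j - τ i : ℚ)| ≤ (L : ℚ) := by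
    intro i j
    have h1 : ⌈|(1 / a i j : ℚ)| + |(-b i j / a i j - τ i : ℚ)|⌉₊ ≤
        ∑ j, ⌈|(1 / a i j : ℚ)| + |(-b i j / a i j - τ i : ℚ)|⌉₊ :=
      Finset.single_le_sum (f := fun j => ⌈|(1 / a i j : ℚ)| + |(-b i j / a i j - τ i : ℚ)|⌉₊)
        (fun _ _ => Nat.zero_le _) (Finset.mem_univ j)
    have h2 : ∑ j, ⌈|(1 / a i j : ℚ)| + |(-b i j / a i j - τ i : ℚ)|⌉₊ ≤
        ∑ i, ∑ j, ⌈|(1 / a i j : ℚ)| + |(-b i j / a i j - τ i : ℚ)|⌉₊ :=
      Finset.single_le_sum (f := fun i => ∑ j, ⌈|(1 / a i j : ℚ)| + |(-b i j / a i j - τ i : ℚ)|⌉₊)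
        (fun _ _ => Nat.zero_le _) (Finset.mem_univ i)
    exact (Nat.le_ceil _).trans (by exact_mod_cast (by omega : _ ≤ L))
  have hL1 : 1 ≤ L := by omega
  have hLR : (0 : ℝ) < L := by exact_mod_cast hL1
  have hLle' : ∀ i j, |((1 / a i j : ℚ) : ℝ)| + |((-b i j / a i j - τ i : ℚ) : ℝ)| ≤ (L : ℝ) := fun i j => by
    exact_mod_cast hLle i j
  have hD := fun i => dat (he i) hLR (hLle' i)
  refine ⟨fun i j z hz => ?_, fun δ W D => ?_⟩
  · rw [G_eq ((he i).1 j).1, Y_eq]
    exact Gp_mul (Hf_mem ((hD i).q j) ((hD i).tr j) hz) (Gp_E ((hD i).q j) _)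
  have hWW := fun i j => wex_QA (α := (e i j).α) ((he i).1 j).1.1 ((he i).1 j).1.2.1
  choose W' hW1 hW2 using hWW
  have hS : ∀ i j, Sys (e i j).n (Pool.Agent.Y119.HY.Am (e i j).n) (Pool.Agent.Y119.HY.Bm (e i j).n (e i j).poly)
      (Hp (e i j).n (e i j).poly) (W' i j) := by
    intro i j
    refine Fm.sys ((hD i).q j) (fun a b => ?_) (hW1 i j) (hW2 i j)
    unfold Hp
    rw [Matrix.of_apply]
    exact sdc_hps_g (Fintype.card_fin _) (nonint ((he i).1 j).1.2.1) ((hD i).q j) a b
  obtain ⟨κ', C, hc, hC, hmain⟩ := Pool.Agent.Run7.h696.CP.tuples_cp Pool.Agent.Run7.h56.CP.p_TOR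
    Pool.Agent.Run7.h56.CP.p_DER Pool.Agent.Run7.h593.CP.p_WRO Pool.Agent.Run7.h593.CP.p_CHA Pool.Agent.Run7.h593.CP.p_RAT
    Pool.Agent.Run7.h160.CP.p_HLS Pool.Agent.Run7.h379.CP.p_INDH Pool.Agent.Run7.h160.CP.p_ONEH
    Pool.Agent.Run7.h56.CP.p_FINH k δ D L W m c r (fun i j => (e i j).n)
    (fun i j => (e i j).poly) (fun i j => -b i j / a i j - τ i) (fun i j => 1 / a i j) W' hL1
    (fun i s => by exact_mod_cast hcL i s) hc0 hci hD hS
  -- all `t_i` larger than `M` are allowed
  set M : ℕ := L + 2 * ∑ i, (τ i).natAbs with hMd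
  have hMi : ∀ i, (L : ℤ) + 2 * |τ i| ≤ M := by
    intro i
    have h1 : (τ i).natAbs ≤ ∑ i, (τ i).natAbs :=
      Finset.single_le_sum (f := fun i => (τ i).natAbs) (fun _ _ => Nat.zero_le _) (Finset.mem_univ i)
    have h2 : (L : ℤ) + 2 * ((τ i).natAbs : ℤ) ≤ M := by omega
    rwa [Int.natCast_natAbs] at h2
  refine ⟨κ', M + C * (2 : ℝ) ^ κ', hc, ?_⟩
  intro V hVf hV Ω x N hx hN
  set S := {t : Fin k → ℕ | (∀ i, x i < t i ∧ t i ≤ x i + N) ∧ (Small a b τ c t ∨ Exceptional δ W V e a b τ c Ω t)} with hSd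
  have hfin : S.Finite := by
    refine (Set.finite_Iic (fun i : Fin k => x i + N)).subset ?_
    intro t ht i
    exact (ht.1 i).2
  rw [Set.ncard_eq_toFinset_card S hfin]
  set S1 := hfin.toFinset.filter fun t => ∃ i, t i ≤ M with hS1
  set S2 := hfin.toFinset.filter fun t => ¬ ∃ i, t i ≤ M with hS2
  have hcard : hfin.toFinset.card = S1.card + S2.card := (Finset.card_filter_add_card_filter_not _).symm
  -- the small points
  have hc1 : (S1.card : ℝ) ≤ M * (N : ℝ) ^ (k - 1) * ∑ i, (1 + (N : ℝ) / ((x i : ℝ) + N) ^ κ') := by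
    have h1 := small_card x N M S1 fun t ht => by
      rw [hS1, Finset.mem_filter] at ht
      exact ⟨(hfin.mem_toFinset.1 ht.1).1, ht.2⟩
    have h2 : (S1.card : ℝ) ≤ k * (M * (N : ℝ) ^ (k - 1)) := by exact_mod_cast h1
    have h3 := bound_le (k := k) (x := x) (N := N) (c := κ')
    calc (S1.card : ℝ) ≤ k * (M * (N : ℝ) ^ (k - 1)) := h2
      _ ≤ (∑ i, (1 + (N : ℝ) / ((x i : ℝ) + N) ^ κ')) * (M * (N : ℝ) ^ (k - 1)) :=
        mul_le_mul_of_nonneg_right h3 (by positivity)
      _ = _ := by ring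
  -- the shifted points
  set f : (Fin k → ℕ) → (Fin k → ℕ) := fun t i => ((t i : ℤ) - τ i).toNat with hf
  have hτ : ∀ i, |τ i| ≤ |τ i| ∧ τ i ≤ |τ i| ∧ -|τ i| ≤ τ i := fun i => ⟨le_rfl, le_abs_self _, neg_abs_le _⟩
  have hft : ∀ t : Fin k → ℕ, (∀ i, M < t i) → ∀ i, ((t i : ℤ)) = (f t i : ℤ) + τ i := by
    intro t ht i
    rw [hf]
    simp only
    have h1 := hMi i
    have h2 := hτ i
    have h3 : (M : ℤ) < t i := by exact_mod_cast ht i
    rw [Int.toNat_of_nonneg (by omega)]
    ring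
  have hS2t : ∀ t ∈ S2, (∀ i, M < t i) ∧ (∀ i, x i < t i ∧ t i ≤ x i + N) ∧ (Small a b τ c t ∨ Exceptional δ W V e a b τ c Ω t) := by
    intro t ht
    rw [hS2, Finset.mem_filter] at ht
    push Not at ht
    exact ⟨ht.2, (hfin.mem_toFinset.1 ht.1)⟩
  set x' : Fin k → ℕ := fun i => ((max (x i) M : ℕ) - τ i : ℤ).toNat with hx'
  have hx'e : ∀ i, (x' i : ℤ) = (max (x i) M : ℕ) - τ i := by
    intro i
    rw [hx']
    simp only
    have h1 := hMi i
    have h2 := hτ i
    have h3 : M ≤ max (x i) M := le_max_right _ _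
    rw [Int.toNat_of_nonneg (by omega)]
  have hinj : Set.InjOn f (S2 : Set (Fin k → ℕ)) := by
    intro t ht t' ht' h0
    funext i
    have h1 := hft t (hS2t t ht).1 i
    have h2 := hft t' (hS2t t' ht').1 i
    rw [h0] at h1
    omega
  set κ : ∀ i j, Matrix (Fin (e i j).n) (Fin (e i j).n) ℂ := fun i j =>
    Pool.Agent.Y119.HY.E (Pool.Agent.Y119.HY.cm (Pool.Agent.Y119.HY.Am (e i j).n)) (Complex.log ((1 / a i j : ℚ) : ℂ))
    with hκ
  have hc2' : ((S2.image f).card : ℝ) ≤ C * (N : ℝ) ^ (k - 1) * ∑ i, (1 + (N : ℝ) / ((x' i : ℝ) + N) ^ κ') := by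
    refine hmain V hV (fun i j => κ i j * Ω i j) x' N (fun i => ?_) hN _ fun s hs => ?_
    · have h1 := hMi i
      have h2 := hτ i
      have h3 : M ≤ max (x i) M := le_max_right _ _
      have h4 := hx'e i
      omega
    rw [Finset.mem_image] at hs
    obtain ⟨t, ht, rfl⟩ := hs
    obtain ⟨htM, hbox, hex⟩ := hS2t t ht
    have hfL : ∀ i, L < f t i := by
      intro i
      have h1 := hMi i
      have h2 := hτ i
      have h3 : (M : ℤ) < t i := by exact_mod_cast htM i
      have h4 := hft t htM i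
      omega
    have hfq : ∀ i j, |(1 / a i j : ℚ)| + |(-b i j / a i j - τ i : ℚ)| < (f t i : ℚ) := fun i j =>
      lt_of_le_of_lt (hLle i j) (by exact_mod_cast hfL i)
    have hsm : ¬ Small a b τ c t := by
      rintro ⟨i, h1 | ⟨s, h1⟩ | ⟨j, h1⟩⟩
      · have h4 := hft t htM i
        have h5 := hfL i
        omega
      · have h4 := hft t htM i
        have h5 := hfL i
        have h6 := hcL i s
        omega
      · exact absurd h1 (not_le.2 (big_abs ((he i).1 j).2.1 (hft t htM i) (hfq i j)))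
    obtain ⟨P, h1, h2, h3, u, l, g, hg, h4⟩ := hex.resolve_left hsm
    refine ⟨fun i => ?_, P, h1, h2, ?_, u, l, fun i j => g i j *
      Pool.Agent.Y119.HY.E (Pool.Agent.Y119.HY.cm (Pool.Agent.Y119.HY.Am (e i j).n)) (-Complex.log ((1 / a i j : ℚ) : ℂ)),
      fun i j => Gp_mul (by rw [← G_eq ((he i).1 j).1]; exact hg i j) (Gp_E ((hD i).q j) _), ?_⟩
    · have h5 := hft t htM i
      have h6 := hx'e i
      have h7 := hbox i
      have h8 := htM i
      have h9 : x i ≤ max (x i) M := le_max_left _ _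
      rcases max_choice (x i) M with h10 | h10 <;> omega
    · rw [point_eq] at h3
      have hlg : (fun i => ((Real.log ((t i : ℝ) - (τ i : ℝ)) : ℝ) : ℂ)) = fun i => ((Real.log (f t i) : ℝ) : ℂ) := by
        funext i
        have h5 : (t i : ℝ) - (τ i : ℝ) = (f t i : ℝ) := by
          have h6 : (t i : ℝ) = (f t i : ℝ) + (τ i : ℝ) := by exact_mod_cast hft t htM i
          rw [h6]
          ring
        rw [h5]
      rw [hlg] at h3
      have hhl : ∀ (i : Fin k) (w : List (Option (Fin (m i)))), hlog (c i) w (1 / ((t i : ℂ) - (τ i : ℂ))) =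
          ((Pool.Agent.Y113.ev ((f t i : ℕ) : ℝ) (Pool.Agent.Run7.h696.CP.hy (c i) w) : ℝ) : ℂ) := by
        intro i w
        have h5 : (t i : ℂ) - (τ i : ℂ) = ((f t i : ℕ) : ℂ) := by
          have h6 : (t i : ℂ) = (f t i : ℂ) + (τ i : ℂ) := by exact_mod_cast hft t htM i
          rw [h6]
          ring
        rw [h5]
        exact hlog_eq (c i) w (f t i)
      simp only [hhl] at h3
      refine (congrArg (fun Z => ∑ u, MvPolynomial.aeval (pj (n := fun i j => (e i j).n)
        (fun i => ((Real.log (f t i) : ℝ) : ℂ)) Z) (P u) *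
        ∏ i, ((Pool.Agent.Y113.ev ((f t i : ℕ) : ℝ) (Pool.Agent.Run7.h696.CP.hy (c i) (u i).1) : ℝ) : ℂ) = 0) ?_).mp h3
      funext i j
      rw [Y_eq, Y_lin ((he i).1 j).2.1 (hft t htM i) (hfq i j), hκ]
      simp only [Matrix.mul_assoc]
    · rw [point_eq] at h4
      refine fun h0 => h4 ((congrArg (fun Z => MvPolynomial.aeval (pj (n := fun i j => (e i j).n) l Z) (P u) = 0) ?_).mp h0)
      funext i j
      have h7 : Pool.Agent.Y119.HY.E (Pool.Agent.Y119.HY.cm (Pool.Agent.Y119.HY.Am (e i j).n))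
          (-Complex.log ((1 / a i j : ℚ) : ℂ)) * κ i j = 1 := by
        have h8 := Pool.Agent.Y119.HY.E_mul_neg (Pool.Agent.Y119.HY.Ac_nil (n := (e i j).n))
          (-Complex.log ((1 / a i j : ℚ) : ℂ))
        rwa [neg_neg] at h8
      rw [Matrix.mul_assoc (g i j), ← Matrix.mul_assoc _ (κ i j), h7, one_mul]
  rw [Finset.card_image_of_injOn hinj] at hc2'
  have hcmp := bound_cmp (x := x) (x' := x') hc hN fun i => by
    have h1 := hMi i
    have h2 := hτ i
    have h3 : M ≤ max (x i) M := le_max_right _ _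
    have h4 := hx'e i
    have h5 : x i ≤ max (x i) M := le_max_left _ _
    have h6 : (x i : ℤ) + N ≤ 2 * ((x' i : ℤ) + N) := by omega
    have h7 : (x i : ℝ) + N ≤ 2 * ((x' i : ℝ) + N) := by exact_mod_cast h6
    linarith
  have hc2 : (S2.card : ℝ) ≤ (C * (2 : ℝ) ^ κ') * (N : ℝ) ^ (k - 1) * ∑ i, (1 + (N : ℝ) / ((x i : ℝ) + N) ^ κ') := by
    calc (S2.card : ℝ) ≤ C * (N : ℝ) ^ (k - 1) * ∑ i, (1 + (N : ℝ) / ((x' i : ℝ) + N) ^ κ') := hc2'
      _ ≤ C * (N : ℝ) ^ (k - 1) * ((2 : ℝ) ^ κ' * ∑ i, (1 + (N : ℝ) / ((x i : ℝ) + N) ^ κ')) :=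
        mul_le_mul_of_nonneg_left hcmp (by positivity)
      _ = _ := by ring
  rw [hcard]
  push_cast
  calc (S1.card : ℝ) + S2.card ≤ M * (N : ℝ) ^ (k - 1) * ∑ i, (1 + (N : ℝ) / ((x i : ℝ) + N) ^ κ') +
        (C * (2 : ℝ) ^ κ') * (N : ℝ) ^ (k - 1) * ∑ i, (1 + (N : ℝ) / ((x i : ℝ) + N) ^ κ') := add_le_add hc1 hc2
    _ = _ := by ring

end Pool.Agent.Results.MP_1eadae_ag.CorrelatedMixedMotives
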