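import Pool.Agent.Run7.h893.Kept.HypergeometricOrthogonal
import Pool.Agent.Run7.h893.NF.Tup

/-!
# Higher normal functions of hypergeometric motives: for almost all fibres all relations of bounded degree between the periods of the mixed motives come from the torsor

Let `θ^n f = z Q(θ) f` be a self-dual hypergeometric equation with maximally unipotent monodromy at `z = 0` (`Eqn`, see
`HypergeometricOrthogonal` of MP_57341d_ag; for example the Picard-Fuchs equations of the mirror families of elliptic curves,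
K3 surfaces, Calabi-Yau threefolds and fourfolds with one parameter). The Frobenius series `∑_k a_k(ε) z^(k + ε)` solves
the equation `(θ^n - z Q(θ)) f = ε^n z^ε`. Its coefficients `f_0, …, f_{n-1}` at `ε^j` are a basis of the solutions of the
homogeneous equation, and the higher coefficients solve the inhomogeneous equations
`(θ^n - z Q(θ)) f_{n+j} = (log z)^j / j!`. The equation with the right-hand side `1` is that of the truncated higher normal
functions which belong to the toric symbols (Doran, Kerr), for `n = 2` the regulators of classes in `K_2` of the elliptic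
curves. The functions `θ^i f_j`, `j < n + q`, are the periods of an extension of a mixed Tate motive with the periods
`(log z)^j / j!`, `j < q`, by the pure motive `M(z)`. The inhomogeneous equation is resonant: it is the case `r = 0` which is
excluded in `MixedHypergeometric` of MP_5d33ca_ag (extensions of the Kummer motives `z^r`, `0 < r < 1`), and it has no
solution which is holomorphic at `z = 0`.

We consider finitely many equations `i` of odd or even orders `n_i`, numbers `q_i`, and arbitrary matrices `Ω_i` of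
constants of size `n_i + q_i` (the periods of the limit mixed motives). The fibre at `z = 1 / t_i` of the mixed motive has
the periods `Ỹ_i(t_i) Ω_i` with `Ỹ_i(t) = (Y, U; 0, E)`, `Y = (θ^a f_b)(1 / t)`, `U = (θ^a f_{n+b})(1 / t)` and the unipotent
matrix `E` of the powers of `-log t`. Let `T_i(z)` be the torsor of the orthogonal (symplectic) group of the matrices `X`
with `Xᵀ B_i(z) X = J_i`. We prove: for almost all tuples of fibres all relations of bounded degree, over any
finite dimensional space of constants, between the entries of the matrices `Ỹ_i(t_i) Ω_i` and the numbers `log t_i` vanish at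
all points `(l_i, (X_i, y_i; 0, E(l_i)) Ω_i)` with `l_i ∈ ℂ`, `X_i ∈ T_i(1 / t_i)` and arbitrary matrices `y_i`. So the
relations of bounded degree are those of a motivic Galois group with the unipotent radical as large as possible: the
classes of the extensions in almost all tuples of fibres are independent.
-/

set_option autoImplicit false

open PowerSeries
open Pool.Agent.Results.MP_57341d_ag.HypergeometricOrthogonal (Eqn shift)
open Pool.Agent.Y119.HZ (pw Jx Yt)
open Run7.h893.NF (bk Yv)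

namespace Pool.Agent.Results.MP_1eadae_ag.HypergeometricNormalFunctions

/-- The matrix with the entries `(θ^i f_{n+j})(1 / t)`, where `f_{n+j}(z)` is the coefficient of `ε^(n+j)` in the series
`∑_k a_k(ε) z^(k + ε)`, `z^ε = ∑_l (log z)^l ε^l / l!`. It solves the equation `(θ^n - z Q(θ)) f_{n+j} = (log z)^j / j!`. -/
noncomputable def U (e : Eqn) (q t : ℕ) : Matrix (Fin e.order) (Fin q) ℂ :=
  Matrix.of fun i j => ∑ l ∈ Finset.range (e.order + (j : ℕ) + 1), ((Real.log (1 / t) ^ l / l.factorial : ℝ) : ℂ) *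
    ∑' k : ℕ, ((coeff (e.order + (j : ℕ) - l) (shift k ^ (i : ℕ) * e.frob k) : ℚ) : ℂ) * (1 / (t : ℂ)) ^ k

/-- the unipotent matrix with the entries `(-l)^(j - i) / (j - i)!` for `i ≤ j` -/
noncomputable def unip (q : ℕ) (l : ℂ) : Matrix (Fin q) (Fin q) ℂ :=
  Matrix.of fun i j => if i ≤ j then (-l) ^ ((j : ℕ) - i) / (((j : ℕ) - i).factorial : ℂ) else 0

/-- the matrix `Ỹ(t) = (Y, U; 0, E)` of the values of all solutions `f_0, …, f_{n+q-1}` at `z = 1 / t` -/
noncomputable def Yfull (e : Eqn) (q t : ℕ) : Matrix (Fin e.order ⊕ Fin q) (Fin e.order ⊕ Fin q) ℂ :=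
  Matrix.fromBlocks (e.Y t) (U e q t) 0 (unip q ((Real.log t : ℝ) : ℂ))

/-- the point with the coordinates `l_i` and the entries of the matrices `X_i` -/
def point {k : ℕ} {e : Fin k → Eqn} {q : Fin k → ℕ} (l : Fin k → ℂ)
    (X : ∀ i, Matrix (Fin (e i).order ⊕ Fin (q i)) (Fin (e i).order ⊕ Fin (q i)) ℂ) :
    (Σ i : Fin k, Option ((Fin (e i).order ⊕ Fin (q i)) × (Fin (e i).order ⊕ Fin (q i)))) → ℂ
  | ⟨i, none⟩ => l i
  | ⟨i, some p⟩ => X i p.1 p.2

/-- There is a polynomial relation of degree `≤ δ` with coefficients in `V` between the numbers `log t_i` and the entries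
of the matrices `Ỹ_i(t_i) Ω_i` which does not vanish identically at the points `(l_i, (X_i, y_i; 0, E(l_i)) Ω_i)` with
`X_i ∈ T_i(1 / t_i)`. -/
def Exceptional (δ : ℕ) (V : Submodule ℚ ℂ) {k : ℕ} (e : Fin k → Eqn) (q : Fin k → ℕ)
    (Ω : ∀ i, Matrix (Fin (e i).order ⊕ Fin (q i)) (Fin (e i).order ⊕ Fin (q i)) ℂ) (t : Fin k → ℕ) : Prop :=
  ∃ P : MvPolynomial (Σ i : Fin k, Option ((Fin (e i).order ⊕ Fin (q i)) × (Fin (e i).order ⊕ Fin (q i)))) ℂ,
    P.totalDegree ≤ δ ∧ (∀ m, P.coeff m ∈ V) ∧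
    MvPolynomial.aeval (point (fun i => ((Real.log (t i) : ℝ) : ℂ)) fun i => Yfull (e i) (q i) (t i) * Ω i) P = 0 ∧
    ∃ (l : Fin k → ℂ) (X : ∀ i, Matrix (Fin (e i).order) (Fin (e i).order) ℂ)
      (y : ∀ i, Matrix (Fin (e i).order) (Fin (q i)) ℂ), (∀ i, X i ∈ (e i).T (1 / (t i : ℂ))) ∧
      MvPolynomial.aeval (point l fun i => Matrix.fromBlocks (X i) (y i) 0 (unip (q i) (l i)) * Ω i) P ≠ 0

theorem famW (e : Eqn) (he : e.Admissible) (q : ℕ) : Run7.h893.NF.FamW e.order q e.poly e.J e.B := by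
  obtain ⟨_ | _, m, β⟩ := e
  · obtain ⟨hm, hβ⟩ := he
    have h := Run7.h893.NF.famW_even hm hβ q
    have e1 : Pool.Agent.Y119.HY.cm (Pool.Agent.Y119.HY.Jm (2 * m) (Pool.Agent.Y119.HY.QB β)) = Eqn.J ⟨false, m, β⟩ := by
      ext i j
      rw [Pool.Agent.Y119.HY.cm_apply]
      show ((Pool.Agent.Y119.HY.Jm (2 * m) (Pool.Agent.Y119.HY.QB β) i j : ℚ) : ℂ) =
        if 2 * m ≤ (i : ℕ) + j + 1 then (((-1) ^ (i : ℕ) * (Pool.Agent.Y119.HY.QB β).coeff (i + j + 1 - 2 * m) : ℚ) : ℂ) else 0
      unfold Pool.Agent.Y119.HY.Jm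
      rw [Matrix.of_apply]
      split_ifs
      · rfl
      · simp
    rw [e1] at h
    exact h
  · obtain ⟨hm, hβ⟩ := he
    have h := Run7.h893.NF.famW_odd hm hβ q
    have e1 : Pool.Agent.Y119.HY.cm (Run7.h893.HO.J0m (2 * m + 1)) = Eqn.J ⟨true, m, β⟩ := by
      ext i j
      rw [Pool.Agent.Y119.HY.cm_apply]
      show ((Run7.h893.HO.J0m (2 * m + 1) i j : ℚ) : ℂ) = if (i : ℕ) + j + 1 = 2 * m + 1 then (-1) ^ (i : ℕ) else 0
      unfold Run7.h893.HO.J0m
      rw [Matrix.of_apply]
      split_ifs <;> simp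
    have e2 : Run7.h893.HO.Bz (Pool.Agent.Y119.HY.cm (Run7.h893.HO.J0m (2 * m + 1)))
        (Pool.Agent.Y119.HY.cm (Run7.h893.HO.J1m (2 * m + 1) (Run7.h893.HO.QP β))) = Eqn.B ⟨true, m, β⟩ := by
      funext z
      ext i j
      unfold Run7.h893.HO.Bz
      rw [Matrix.sub_apply, Matrix.smul_apply, e1, smul_eq_mul]
      rfl
    rw [e2, e1] at h
    exact h

/-- the entries of the first rows of the matrix of the solutions -/
theorem Yv_row (e : Eqn) (q t : ℕ) (i : Fin e.order) (j : Fin (e.order + q)) :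
    Yv e.order q e.poly t (Fin.castAdd q i) j = ∑ l ∈ Finset.range ((j : ℕ) + 1), ((Real.log (1 / t) ^ l / l.factorial : ℝ) : ℂ) *
    ∑' k : ℕ, ((coeff ((j : ℕ) - l) (shift k ^ (i : ℕ) * e.frob k) : ℚ) : ℂ) * (1 / (t : ℂ)) ^ k := by
  unfold Yv
  rw [Matrix.mul_apply]
  have hE : ∀ c : Fin (e.order + q), Pool.Agent.Y119.HY.E (Pool.Agent.Y119.HY.cm (Pool.Agent.Y119.HY.Am (e.order + q)))
      (-((Real.log t : ℝ) : ℂ)) c j = ∑ l ∈ Finset.range (e.order + q),
        if (j : ℕ) = c + l then ((Real.log (1 / t) ^ l / l.factorial : ℝ) : ℂ) else 0 := by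
    intro c
    unfold Pool.Agent.Y119.HY.E
    rw [Matrix.sum_apply]
    refine Finset.sum_congr rfl fun l _ => ?_
    rw [Matrix.smul_apply, ← Pool.Agent.Y119.HY.cm_pow, Pool.Agent.Y119.HY.cm_apply, Pool.Agent.Y119.HY.Am_pow, smul_eq_mul,
      one_div, Real.log_inv]
    split_ifs
    · push_cast
      ring
    · simp
  simp only [hE, Finset.mul_sum]
  rw [Finset.sum_comm]
  have hsub : Finset.range ((j : ℕ) + 1) ⊆ Finset.range (e.order + q) := by
    intro l hl
    rw [Finset.mem_range] at hl ⊢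
    have := j.2
    omega
  symm
  refine Finset.sum_subset_zero_on_sdiff hsub (fun l hl => ?_) fun l hl => ?_
  · rw [Finset.mem_sdiff, Finset.mem_range, Finset.mem_range] at hl
    refine Finset.sum_eq_zero fun c _ => ?_
    rw [if_neg (by omega), mul_zero]
  · rw [Finset.mem_range] at hl
    have hj := j.2
    rw [Finset.sum_eq_single (⟨(j : ℕ) - l, by omega⟩ : Fin (e.order + q))]
    · rw [if_pos (by simp only; omega), mul_comm]
      congr 1
      rw [Run7.h893.NF.Hf_Gc]
      unfold Pool.Agent.Y119.HY.ps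
      refine tsum_congr fun k => ?_
      have hh := Run7.h893.NF.hx_lt (n := e.order) (q := q) (Q := e.poly) k (i := Fin.castAdd q i) (by simp)
        (⟨(j : ℕ) - l, by omega⟩ : Fin (e.order + q))
      show _ = ((Run7.h893.NF.hx e.order q e.poly k (Fin.castAdd q i) (⟨(j : ℕ) - l, by omega⟩ : Fin (e.order + q)) : ℚ) : ℂ) * _
      rw [hh]
      unfold Pool.Agent.Y119.HY.hq
      rw [← Pool.Agent.Results.MP_57341d_ag.HypergeometricOrthogonal.frob_eq]
      have hs : Pool.Agent.Y119.HY.kx k = shift k := rfl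
      rw [hs]
      push_cast
      rfl
    · intro c _ hc
      rw [if_neg, mul_zero]
      intro h
      apply hc
      apply Fin.ext
      simp only
      omega
    · intro h
      exact absurd (Finset.mem_univ _) h

theorem unip_eq (q : ℕ) (l : ℂ) : unip q l = Pool.Agent.Y119.HY.E (Pool.Agent.Y119.HY.cm (Pool.Agent.Y119.HY.Am q)) (-l) := by
  ext i j
  rw [Run7.h893.NF.E_Am]
  unfold unip Run7.h893.NF.ee
  rw [Matrix.of_apply]
  rfl

theorem Yv_eq (e : Eqn) (q t : ℕ) : Yv e.order q e.poly t =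
    bk (e.Y t) (U e q t) 0 (unip q ((Real.log t : ℝ) : ℂ)) := by
  ext i j
  refine Fin.addCases (fun i => ?_) (fun i => ?_) i
  · refine Fin.addCases (fun j => ?_) (fun j => ?_) j
    · rw [Run7.h893.NF.bk_cc, Yv_row]
      rfl
    · rw [Run7.h893.NF.bk_cn, Yv_row]
      rfl
  · unfold Yv
    rw [Run7.h893.NF.Hx_bk, Run7.h893.NF.Ex_bk, Run7.h893.NF.bk_mul]
    refine Fin.addCases (fun j => ?_) (fun j => ?_) j
    · rw [Run7.h893.NF.bk_nc, Run7.h893.NF.bk_nc]
      simp
    · rw [Run7.h893.NF.bk_nn, Run7.h893.NF.bk_nn, unip_eq]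
      simp

/-- the reindexing of the coordinates -/
def phi {k : ℕ} {e : Fin k → Eqn} {q : Fin k → ℕ} :
    (Σ i : Fin k, Option ((Fin (e i).order ⊕ Fin (q i)) × (Fin (e i).order ⊕ Fin (q i)))) → Jx fun i => (e i).order + q i
  | ⟨i, none⟩ => ⟨i, none⟩
  | ⟨i, some p⟩ => ⟨i, some (finSumFinEquiv p.1, finSumFinEquiv p.2)⟩

theorem phi_inj {k : ℕ} {e : Fin k → Eqn} {q : Fin k → ℕ} : Function.Injective (phi (e := e) (q := q)) := by
  rintro ⟨i, _ | ⟨a, b⟩⟩ ⟨i', _ | ⟨a', b'⟩⟩ h
  · unfold phi at h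
    simp only [Sigma.mk.injEq] at h
    obtain ⟨rfl, -⟩ := h
    rfl
  · unfold phi at h
    simp only [Sigma.mk.injEq] at h
    obtain ⟨rfl, h⟩ := h
    simp at h
  · unfold phi at h
    simp only [Sigma.mk.injEq] at h
    obtain ⟨rfl, h⟩ := h
    simp at h
  · unfold phi at h
    simp only [Sigma.mk.injEq] at h
    obtain ⟨rfl, h⟩ := h
    simp only [heq_eq_eq, Option.some.injEq, Prod.mk.injEq, EmbeddingLike.apply_eq_iff_eq] at h
    obtain ⟨rfl, rfl⟩ := h
    rfl

theorem pw_phi {k : ℕ} {e : Fin k → Eqn} {q : Fin k → ℕ} (l : Fin k → ℂ)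
    (X : ∀ i, Matrix (Fin ((e i).order + q i)) (Fin ((e i).order + q i)) ℂ) :
    pw (n := fun i => (e i).order + q i) l X ∘ phi (e := e) (q := q) =
      point l fun i => (X i).submatrix finSumFinEquiv finSumFinEquiv := by
  funext v
  obtain ⟨i, _ | p⟩ := v
  · rfl
  · rfl

theorem bk_sub {n q : ℕ} (A : Matrix (Fin n) (Fin n) ℂ) (B : Matrix (Fin n) (Fin q) ℂ) (C : Matrix (Fin q) (Fin n) ℂ)
    (D : Matrix (Fin q) (Fin q) ℂ) (Ω : Matrix (Fin n ⊕ Fin q) (Fin n ⊕ Fin q) ℂ) :
    (bk A B C D * Ω.submatrix finSumFinEquiv.symm finSumFinEquiv.symm).submatrix finSumFinEquiv finSumFinEquiv =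
      Matrix.fromBlocks A B C D * Ω := by
  unfold bk
  rw [Matrix.submatrix_mul_equiv, Matrix.submatrix_submatrix]
  simp

/-- Let `e_i`, `1 ≤ i ≤ k`, be admissible self-dual hypergeometric equations of odd or even orders and `q_i ≥ 0`. For all
`δ` and `D` there are `γ > 0` and `C` such that for every `ℚ`-space `V` of complex numbers of dimension `≤ D`, all complex
matrices `Ω_i` of size `n_i + q_i` and every box `∏_i (x_i, x_i + N]` with `x_i ≥ 1` the following holds for all but
`C N^(k-1) ∑_i (1 + N / (x_i + N)^γ)` integral points `t` of the box: every polynomial relation of degree `≤ δ` with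
coefficients in `V` between the numbers `log t_i` and the entries of the matrices `Ỹ_i(t_i) Ω_i` vanishes at all points
`(l_i, (X_i, y_i; 0, E(l_i)) Ω_i)` with `X_i ∈ T_i(1 / t_i)`. -/
theorem result (k : ℕ) (e : Fin k → Eqn) (he : ∀ i, (e i).Admissible) (q : Fin k → ℕ) (δ D : ℕ) :
    ∃ γ C : ℝ, 0 < γ ∧ ∀ V : Submodule ℚ ℂ, Module.Finite ℚ V → Module.finrank ℚ V ≤ D →
      ∀ (Ω : ∀ i, Matrix (Fin (e i).order ⊕ Fin (q i)) (Fin (e i).order ⊕ Fin (q i)) ℂ) (x : Fin k → ℕ) (N : ℕ),
      (∀ i, 1 ≤ x i) → 1 ≤ N →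
      (({t : Fin k → ℕ | (∀ i, x i < t i ∧ t i ≤ x i + N) ∧ Exceptional δ V e q Ω t}.ncard : ℕ) : ℝ) ≤
        C * (N : ℝ) ^ (k - 1) * ∑ i, (1 + N / ((x i : ℝ) + N) ^ γ) := by
  classical
  have hF := fun i => famW (e i) (he i) (q i)
  have hcast : ∀ t : ℕ, (((1 / (t : ℝ) : ℝ)) : ℂ) = 1 / (t : ℂ) := fun t => by push_cast; rfl
  obtain ⟨γ, C, hγ, -, hmain⟩ := Run7.h893.NF.tuples_x k δ D (fun i => (e i).order) q (fun i => (e i).poly)
    (fun i => (e i).J) (fun i => (e i).B) hF
  refine ⟨γ, C, hγ, ?_⟩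
  intro V hVf hV Ω x N hx hN
  set S := {t : Fin k → ℕ | (∀ i, x i < t i ∧ t i ≤ x i + N) ∧ Exceptional δ V e q Ω t} with hS
  have hfin : S.Finite := by
    refine (Set.finite_Iic (fun i : Fin k => x i + N)).subset ?_
    intro t ht i
    exact (ht.1 i).2
  rw [Set.ncard_eq_toFinset_card S hfin]
  refine hmain V hV (fun i => (Ω i).submatrix finSumFinEquiv.symm finSumFinEquiv.symm) x N hx hN _ fun t ht => ?_
  have ht' : t ∈ S := hfin.mem_toFinset.1 ht
  obtain ⟨hbox, P, h1, h2, h3, l, X, y, hX, h4⟩ := ht'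
  have hval : ∀ (l : Fin k → ℂ) (Z : ∀ i, Matrix (Fin ((e i).order + q i)) (Fin ((e i).order + q i)) ℂ),
      MvPolynomial.aeval (pw (n := fun i => (e i).order + q i) l Z) (MvPolynomial.rename (phi (e := e) (q := q)) P) =
        MvPolynomial.aeval (point l fun i => (Z i).submatrix finSumFinEquiv finSumFinEquiv) P := by
    intro l Z
    rw [MvPolynomial.aeval_rename, pw_phi]
  refine ⟨hbox, MvPolynomial.rename phi P, (MvPolynomial.totalDegree_rename_le _ _).trans h1, fun m => ?_, ?_, l, X, y,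
    fun i => ?_, ?_⟩
  · by_cases hm : ∃ u : (Σ i : Fin k, Option ((Fin (e i).order ⊕ Fin (q i)) × (Fin (e i).order ⊕ Fin (q i)))) →₀ ℕ,
        u.mapDomain phi = m
    · obtain ⟨u, rfl⟩ := hm
      rw [MvPolynomial.coeff_rename_mapDomain _ phi_inj]
      exact h2 u
    · push Not at hm
      rw [MvPolynomial.coeff_rename_eq_zero _ _ _ fun u hu => absurd hu (hm u)]
      exact V.zero_mem
  · rw [hval]
    have h5 : (fun i => (Yv (e i).order (q i) (e i).poly (t i) * (Ω i).submatrix finSumFinEquiv.symm finSumFinEquiv.symm).submatrix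
        finSumFinEquiv finSumFinEquiv) = fun i => Yfull (e i) (q i) (t i) * Ω i := by
      funext i
      rw [Yv_eq, bk_sub]
      rfl
    rw [h5]
    exact h3
  · have h5 : (X i).transpose * (e i).B (1 / (t i : ℂ)) * X i = (e i).J := hX i
    rw [← hcast] at h5
    exact h5
  · rw [hval]
    have h5 : (fun i => (bk (X i) (y i) 0 (Pool.Agent.Y119.HY.E (Pool.Agent.Y119.HY.cm (Pool.Agent.Y119.HY.Am (q i))) (-l i)) *
        (Ω i).submatrix finSumFinEquiv.symm finSumFinEquiv.symm).submatrix finSumFinEquiv finSumFinEquiv) =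
        fun i => Matrix.fromBlocks (X i) (y i) 0 (unip (q i) (l i)) * Ω i := by
      funext i
      rw [bk_sub, unip_eq]
    rw [h5]
    exact h4

end Pool.Agent.Results.MP_1eadae_ag.HypergeometricNormalFunctions
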