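import Pool.Agent.Run7.h225.HP.ALL

/-!
# Polylogarithms and periods of hypergeometric motives at the same fibres: for almost all fibres all relations of bounded
degree are the obvious ones

For an index `s = (s_1, …, s_d)` of positive integers let `Li_s(z) = ∑_{k_1 > … > k_d ≥ 1} z^(k_1) / (k_1^(s_1) ⋯ k_d^(s_d))` be
the multiple polylogarithm in one variable; its values at rational points are periods of mixed Tate motives. Let
`α_1, …, α_n` be rational numbers which are not integers, `n ≥ 2`, `θ = z d/dz` and `Q(x) = ∏_j (x + α_j)`. The periods of the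
fibres of the hypergeometric motive `θ^n - z Q(θ)` near `z = 0` are linear combinations with constant coefficients of the
numbers `(θ^i f_j)(z)`, where `f_0, …, f_{n-1}` is the basis of solutions given by the Frobenius method.

Up to rational gauge transformations the equation depends only on the `α_j` modulo `ℤ`, so we may normalise them such that
`s = ∑_j α_j` is `0` if it is an integer, `Q(-x) = Q(x)` if the equation is self-dual and `n` is even, and
`Q(-1-x) = -Q(x)` if it is self-dual and `n` is odd. Then the differential Galois group contains `Sp_n` (`Q(-x) = Q(x)`), `SO_n`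
(`Q(-1-x) = -Q(x)`) or `SL_n` (not self-dual). For each of finitely many fibres `z_i = 1 / t_i` we take a finite list of such
equations, such that the exponents at infinity of different equations of the list are not the same modulo `ℤ`, nor those of
the dual equation (and a list does not contain both an equation of order `2` with a reflection of order two at `1` and a
self-dual equation of order `3`, see Clausen's formula).

We prove that for almost all tuples `t` of integers all relations of bounded degree and weight, over any finite dimensional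
space of constants, between the numbers `log t_i`, the values `Li_s(1 / t_i)` of ALL multiple polylogarithms and the periods of
ALL hypergeometric motives of the lists at the same fibres are the obvious ones: by the shuffle relations every polynomial in
these numbers can be written as a sum of products `P_u ∏_i Li_{u_i}(1 / t_i)`, `P_u` a polynomial in the `log t_i` and in the
periods of the hypergeometric motives; if it vanishes, then every coefficient `P_u` vanishes at all points of `ℂ^k` times the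
torsors of the motives, i.e. it vanishes because of the bilinear relations of the self-dual equations and the determinants
`(1 - z_i)^(-s)` (with one and the same logarithm of `1 - z_i` for the equations of one fibre). The functional part of the proof
says that the multiple polylogarithms are linearly independent over the field generated by `z`, `log z` and the solutions of
all the equations; in particular `log (1 - z)` is not in this field, although some of its powers are.
-/

set_option autoImplicit false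

open PowerSeries Pool.Agent.Y119.HZ Pool.Agent.Run7.h225.HG

namespace Pool.Agent.Results.MP_1eadae_ag.HypergeometricPolylogarithms

/-- The indices of weight at most `W`: the lists of positive integers with sum `≤ W`. -/
abbrev Index (W : ℕ) : Type := {s : List ℕ // (∀ x ∈ s, 1 ≤ x) ∧ s.sum ≤ W}

/-- there are finitely many -/
noncomputable instance (W : ℕ) : Fintype (Index W) := inferInstanceAs (Fintype (Pool.Agent.Run7.h225.HP.Idx W))

/-- The coefficients of the multiple polylogarithms: `coef (s_1, …, s_d) k = ∑ 1 / (k_1^(s_1) ⋯ k_d^(s_d))`, the sum over all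
`k = k_1 > … > k_d ≥ 1`. -/
def coef : List ℕ → ℕ → ℚ
  | [], k => if k = 0 then 1 else 0
  | s :: l, k => (∑ j ∈ Finset.range k, coef l j) / (k : ℚ) ^ s

/-- the value `Li_s(1 / t)` -/
noncomputable def Li (s : List ℕ) (t : ℕ) : ℝ := ∑' k : ℕ, (coef s k : ℝ) * (1 / (t : ℝ)) ^ k

/-- A hypergeometric equation `θ^n f = z ∏_j (θ + α_j) f`. -/
structure Eqn where
  n : ℕ
  α : Fin n → ℚ

/-- the dual equation (the exponents at infinity are `-α_j`) -/
def Eqn.dual (e : Eqn) : Eqn := ⟨e.n, fun j => -e.α j⟩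

/-- the multiset of the fractional parts of the `α_j` -/
def Eqn.frac (e : Eqn) : Multiset ℚ := Multiset.map (fun j => Int.fract (e.α j)) Finset.univ.val

/-- the polynomial `Q = ∏_j (x + α_j)` -/
noncomputable def Eqn.poly (e : Eqn) : Polynomial ℚ := ∏ j, (Polynomial.X + Polynomial.C (e.α j))

/-- `Q(-x) = Q(x)` -/
def Eqn.Symplectic (e : Eqn) : Prop := e.poly.comp (-Polynomial.X) = e.poly

/-- `Q(-1-x) = -Q(x)` -/
def Eqn.Orthogonal (e : Eqn) : Prop := e.poly.comp (-(Polynomial.X + 1)) = -e.poly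

/-- The order is at least two, the exponents at infinity are not integers, their sum is `0` or not an integer, and either the
fractional parts of the `α_j` and of the `-α_j` are different multisets or `Q(-x) = Q(x)` or `Q(-1-x) = -Q(x)`. -/
def Eqn.Admissible (e : Eqn) : Prop :=
  2 ≤ e.n ∧ (∀ j, ∀ a : ℤ, e.α j ≠ a) ∧ (∑ j, e.α j = 0 ∨ ∀ a : ℤ, ∑ j, e.α j ≠ a) ∧
  (e.frac ≠ e.dual.frac ∨ e.Symplectic ∨ e.Orthogonal)

/-- The equations of a list are admissible, the exponents at infinity of different equations of the list, and of one of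
them and of the dual of another one, are different modulo `ℤ`, and the list does not contain both an equation of order two
such that `s = ∑_j α_j ≠ 0` and `2 s` is an integer and an equation of order three with `Q(-1-x) = -Q(x)`. -/
def Good {r : ℕ} (e : Fin r → Eqn) : Prop :=
  (∀ j, (e j).Admissible) ∧ (∀ i j, i ≠ j → (e i).frac ≠ (e j).frac ∧ (e i).frac ≠ (e j).dual.frac) ∧
  ∀ i j, (e i).n = 2 → (∃ a : ℤ, 2 * ∑ l, (e i).α l = a) → ∑ l, (e i).α l ≠ 0 → (e j).n = 3 → ¬ (e j).Orthogonal

/-- the power series `k + ε` in the variable `ε` -/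
noncomputable def shift (k : ℕ) : PowerSeries ℚ := C (k : ℚ) + X

/-- `a_k(ε) = ∏_{l < k} Q(l + ε) / (l + 1 + ε)^n`. The series `∑_k a_k(ε) z^(k + ε)` solves the equation
`(θ^n - z Q(θ)) f = ε^n z^ε`, hence its coefficients `f_j` at `ε^j` with `j < n` are solutions of the homogeneous
equation. -/
noncomputable def Eqn.frob (e : Eqn) (k : ℕ) : PowerSeries ℚ :=
  ∏ l ∈ Finset.range k, (Polynomial.aeval (shift l) e.poly * ((shift (l + 1))⁻¹) ^ e.n)

/-- The matrix with the entries `(θ^i f_j)(1 / t)`, where `f_j(z)` is the coefficient of `ε^j` in the series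
`∑_k a_k(ε) z^(k + ε)`, `z^ε = ∑_l (log z)^l ε^l / l!`. -/
noncomputable def Eqn.Y (e : Eqn) (t : ℕ) : Matrix (Fin e.n) (Fin e.n) ℂ :=
  Matrix.of fun i j => ∑ l ∈ Finset.range ((j : ℕ) + 1), ((Real.log (1 / t) ^ l / l.factorial : ℝ) : ℂ) *
    ∑' k : ℕ, ((coeff ((j : ℕ) - l) (shift k ^ (i : ℕ) * e.frob k) : ℚ) : ℂ) * (1 / (t : ℂ)) ^ k

/-- The matrix of the alternating form: the entry `(i, j)` is `(-1)^i q_{i+j+1-n}` for `i + j + 1 ≥ n` and `0`
otherwise, where `q_l` are the coefficients of `Q`. -/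
noncomputable def Eqn.J (e : Eqn) : Matrix (Fin e.n) (Fin e.n) ℂ :=
  Matrix.of fun i j => if e.n ≤ (i : ℕ) + j + 1 then (((-1) ^ (i : ℕ) * e.poly.coeff (i + j + 1 - e.n) : ℚ) : ℂ) else 0

/-- the polynomial `(Q(x) + Q(y)) / (x + y + 1)`, a polynomial in `y` with coefficients in `ℚ[x]` -/
noncomputable def lagrange (Q : Polynomial ℚ) : Polynomial (Polynomial ℚ) :=
  (Polynomial.C Q + Q.map Polynomial.C) /ₘ (Polynomial.X + Polynomial.C (Polynomial.X + 1))

/-- The matrix of the symmetric form on the fibre at `z`: the entry `(i, j)` is the coefficient of `x^i y^j` in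
`(x^n + y^n) / (x + y) - z (Q(x) + Q(y)) / (x + y + 1)`. -/
noncomputable def Eqn.B (e : Eqn) (z : ℂ) : Matrix (Fin e.n) (Fin e.n) ℂ :=
  Matrix.of fun i j => (if (i : ℕ) + j + 1 = e.n then (-1) ^ (i : ℕ) else 0) -
    z * ((((lagrange e.poly).coeff j).coeff i : ℚ) : ℂ)

/-- The torsor of the equation at `z` for a logarithm `L` of `1 - z`: the matrices `X` with `det X = exp(-s L)`,
`s = ∑_j α_j`, and `Xᵀ J X = J` if `Q(-x) = Q(x)`, and `Xᵀ B(z) X = B(0)` if `Q(-1-x) = -Q(x)`. -/
def Eqn.T (e : Eqn) (L z : ℂ) : Set (Matrix (Fin e.n) (Fin e.n) ℂ) :=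
  {X | X.det = Complex.exp (-((∑ j, e.α j : ℚ) : ℂ) * L) ∧ (e.Symplectic → X.transpose * e.J * X = e.J) ∧
    (e.Orthogonal → X.transpose * e.B z * X = e.B 0)}

/-- The torsor of a list of equations at the fibre `z`: the tuples of matrices `X_j` such that there is a logarithm `L` of
`1 - z` with `X_j ∈ T_j(L, z)` for all `j`. -/
def Torsor {r : ℕ} (e : Fin r → Eqn) (z : ℂ) : Set (∀ j, Matrix (Fin (e j).n) (Fin (e j).n) ℂ) :=
  {X | ∃ L : ℂ, Complex.exp L = 1 - z ∧ ∀ j, X j ∈ (e j).T L z}

/-- the point with the coordinates `l_i` and the entries of the matrices `X_ij` -/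
def point {k : ℕ} {r : Fin k → ℕ} {e : ∀ i, Fin (r i) → Eqn} (l : Fin k → ℂ)
    (X : ∀ i j, Matrix (Fin (e i j).n) (Fin (e i j).n) ℂ) :
    (Σ i : Fin k, Option (Σ j : Fin (r i), Fin (e i j).n × Fin (e i j).n)) → ℂ
  | ⟨i, none⟩ => l i
  | ⟨i, some ⟨j, p⟩⟩ => X i j p.1 p.2

/-- There is a relation `∑_u P_u(log t_i, Y_ij(1 / t_i) Ω_ij) ∏_i Li_{u_i}(1 / t_i) = 0`, `u` runs over the tuples of indices of
weight `≤ W`, the `P_u` are polynomials of degree `≤ δ` with coefficients in `V`, such that some `P_u` does not vanish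
identically on the set of the points with arbitrary coordinates `l_i` and the matrices `X_ij Ω_ij` with `(X_ij)_j` in the
torsor of the `i`-th list at `1 / t_i`. -/
def Exceptional (δ W : ℕ) (V : Submodule ℚ ℂ) {k : ℕ} {r : Fin k → ℕ} (e : ∀ i, Fin (r i) → Eqn)
    (Ω : ∀ i j, Matrix (Fin (e i j).n) (Fin (e i j).n) ℂ) (t : Fin k → ℕ) : Prop :=
  ∃ P : (Fin k → Index W) → MvPolynomial (Σ i : Fin k, Option (Σ j : Fin (r i), Fin (e i j).n × Fin (e i j).n)) ℂ,
    (∀ u, (P u).totalDegree ≤ δ) ∧ (∀ u s, (P u).coeff s ∈ V) ∧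
    ∑ u, MvPolynomial.aeval (point (fun i => ((Real.log (t i) : ℝ) : ℂ)) fun i j => (e i j).Y (t i) * Ω i j) (P u) *
      ∏ i, (Li (u i).1 (t i) : ℂ) = 0 ∧
    ∃ (u : Fin k → Index W) (l : Fin k → ℂ) (X : ∀ i j, Matrix (Fin (e i j).n) (Fin (e i j).n) ℂ),
      (∀ i, X i ∈ Torsor (e i) (1 / (t i : ℂ))) ∧ MvPolynomial.aeval (point l fun i j => X i j * Ω i j) (P u) ≠ 0

theorem coef_eq (s : List ℕ) (k : ℕ) : coef s k = Pool.Agent.Run7.h225.HP.mz s k := by
  induction s generalizing k with
  | nil => rfl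
  | cons a l ih =>
    rw [coef, Pool.Agent.Run7.h225.HP.mz]
    simp only [ih]

theorem Li_eq (s : List ℕ) (t : ℕ) : Li s t = Pool.Agent.Y113.ev (t : ℝ) (Pool.Agent.Run7.h225.HP.li s) := by
  unfold Li Pool.Agent.Y113.ev Pool.Agent.Run7.h225.HP.li
  refine tsum_congr fun k => ?_
  rw [coef_eq, coeff_mk]

theorem frob_eq (e : Eqn) (k : ℕ) : e.frob k = Pool.Agent.Y119.HY.aq e.n e.poly k := rfl

theorem J_eq (e : Eqn) : e.J = Pool.Agent.Y119.HY.cm (Pool.Agent.Y119.HY.Jm e.n e.poly) := by
  ext i j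
  rw [Pool.Agent.Y119.HY.cm_apply]
  unfold Eqn.J Pool.Agent.Y119.HY.Jm
  rw [Matrix.of_apply, Matrix.of_apply]
  split_ifs
  · rfl
  · simp

theorem B_eq (e : Eqn) (z : ℂ) : e.B z = Run7.h893.HO.Bz (Pool.Agent.Y119.HY.cm (Run7.h893.HO.J0m e.n))
    (Pool.Agent.Y119.HY.cm (Run7.h893.HO.J1m e.n e.poly)) z := by
  ext i j
  unfold Eqn.B Run7.h893.HO.Bz
  rw [Matrix.of_apply, Matrix.sub_apply, Matrix.smul_apply, Pool.Agent.Y119.HY.cm_apply, Pool.Agent.Y119.HY.cm_apply,
    smul_eq_mul]
  congr 1
  unfold Run7.h893.HO.J0m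
  rw [Matrix.of_apply]
  split_ifs
  · push_cast
    rfl
  · rw [Rat.cast_zero]

theorem Y_eq (e : Eqn) (t : ℕ) : e.Y t = Yt e.n e.poly t := by
  ext i j
  unfold Eqn.Y Yt
  rw [Matrix.of_apply, Matrix.mul_apply]
  have hE : ∀ c : Fin e.n, Pool.Agent.Y119.HY.E (Pool.Agent.Y119.HY.cm (Pool.Agent.Y119.HY.Am e.n))
      (-((Real.log t : ℝ) : ℂ)) c j = ∑ l ∈ Finset.range e.n,
        if (j : ℕ) = c + l then ((Real.log (1 / t) ^ l / l.factorial : ℝ) : ℂ) else 0 := by
    intro c
    unfold Pool.Agent.Y119.HY.E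
    rw [Matrix.sum_apply]
    refine Finset.sum_congr rfl fun l _ => ?_
    rw [Matrix.smul_apply, ← Pool.Agent.Y119.HY.cm_pow, Pool.Agent.Y119.HY.cm_apply, Pool.Agent.Y119.HY.Am_pow, smul_eq_mul,
      one_div, Real.log_inv]
    split_ifs
    · push_cast
      ring
    · simp
  simp only [hE, Finset.mul_sum]
  rw [Finset.sum_comm]
  have hsub : Finset.range ((j : ℕ) + 1) ⊆ Finset.range e.n := by
    intro l hl
    rw [Finset.mem_range] at hl ⊢
    have := j.2
    omega
  refine Finset.sum_subset_zero_on_sdiff hsub (fun l hl => ?_) fun l hl => ?_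
  · rw [Finset.mem_sdiff, Finset.mem_range, Finset.mem_range] at hl
    refine Finset.sum_eq_zero fun c _ => ?_
    rw [if_neg (by omega), mul_zero]
  · rw [Finset.mem_range] at hl
    have hj := j.2
    rw [Finset.sum_eq_single (⟨(j : ℕ) - l, by omega⟩ : Fin e.n)]
    · rw [if_pos (by simp only; omega), mul_comm]
      congr 1
      unfold Pool.Agent.Y119.HY.Hf Pool.Agent.Y119.HY.ps
      rw [Matrix.of_apply]
      refine tsum_congr fun k => ?_
      show _ = ((Pool.Agent.Y119.HY.hq e.n e.poly k i ((j : ℕ) - l) : ℚ) : ℂ) * (((1 / (t : ℝ) : ℝ)) : ℂ) ^ k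
      unfold Pool.Agent.Y119.HY.hq
      rw [← frob_eq]
      have hs : Pool.Agent.Y119.HY.kx k = shift k := rfl
      rw [hs]
      push_cast
      rfl
    · intro c _ hc
      rw [if_neg, mul_zero]
      intro h
      apply hc
      apply Fin.ext
      simp only
      omega
    · intro h
      exact absurd (Finset.mem_univ _) h

theorem point_eq {k : ℕ} {r : Fin k → ℕ} {e : ∀ i, Fin (r i) → Eqn} (l : Fin k → ℂ)
    (X : ∀ i j, Matrix (Fin (e i j).n) (Fin (e i j).n) ℂ) : point l X = pj (n := fun i j => (e i j).n) l X := by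
  funext v
  obtain ⟨i, _ | ⟨j, p⟩⟩ := v
  · rfl
  · rfl

theorem types {r : ℕ} {e : Fin r → Eqn} (he : Good e) : ∃ W, JU (fun j => (e j).n) (fun j => (e j).poly) W :=
  JU_QA (n := fun j => (e j).n) (α := fun j => (e j).α) (fun j => (he.1 j).1) (fun j => (he.1 j).2.1)
    (fun j => (he.1 j).2.2.1) (fun j => (he.1 j).2.2.2) (fun i j hij => he.2.1 i j hij) he.2.2

theorem T_eq {e : Eqn} (he : e.Admissible) (L z : ℂ) : e.T L z = TU e.n e.poly L z := by
  have h1 : e.poly.coeff (e.n - 1) = ∑ j, e.α j := QA_coeff (by have := he.1; omega) e.α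
  have hQ := QG_QA he.1 (nonint he.2.1)
  have hB : e.B 0 = Pool.Agent.Y119.HY.cm (Run7.h893.HO.J0m e.n) := by
    rw [B_eq]
    unfold Run7.h893.HO.Bz
    rw [zero_smul, sub_zero]
  ext X
  unfold Eqn.T TU
  rw [h1, J_eq, hB, B_eq]
  refine and_congr_right fun _ => and_congr ⟨fun h h2 => h ?_, fun h h2 => h ?_⟩ ⟨fun h h2 => h h2.sym, fun h h2 => h ?_⟩
  · exact even_of_QD h2
  · exact QD_of_even hQ h2
  · exact QO_of_comp he.1 (nonint he.2.1) h2

/-- Let `e_i`, `1 ≤ i ≤ k`, be good lists of hypergeometric equations `e_ij`. Then the tuples `(Y_ij(1 / t))_j` lie in the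
torsor of the list `e_i` at `1 / t` for `t ≥ 2`, and for all `δ`, `W` and `D` there are `c > 0` and `C` such that for every
`ℚ`-space `V` of complex numbers of dimension `≤ D`, all complex matrices `Ω_ij` and every box `∏_i (x_i, x_i + N]` with
`x_i ≥ 1` the following holds for all but `C N^(k-1) ∑_i (1 + N / (x_i + N)^c)` integral points `t` of the box: for every
relation `∑_u P_u(log t_i, Y_ij(1 / t_i) Ω_ij) ∏_i Li_{u_i}(1 / t_i) = 0`, `u` over the tuples of indices of weight `≤ W`, with
polynomials `P_u` of degree `≤ δ` with coefficients in `V`, all `P_u` vanish identically on the set of the points with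
arbitrary coordinates in place of the `log t_i` and the matrices `X_ij Ω_ij`, where `(X_ij)_j` is in the torsor of the list
`e_i` at `1 / t_i` for all `i`. -/
theorem result (k : ℕ) (r : Fin k → ℕ) (e : ∀ i, Fin (r i) → Eqn) (he : ∀ i, Good (e i)) :
    (∀ i, ∀ t : ℕ, 2 ≤ t → (fun j => (e i j).Y t) ∈ Torsor (e i) (1 / (t : ℂ))) ∧
    ∀ δ W D : ℕ, ∃ c C : ℝ, 0 < c ∧ ∀ V : Submodule ℚ ℂ, Module.Finite ℚ V → Module.finrank ℚ V ≤ D →
      ∀ (Ω : ∀ i j, Matrix (Fin (e i j).n) (Fin (e i j).n) ℂ) (x : Fin k → ℕ) (N : ℕ), (∀ i, 1 ≤ x i) → 1 ≤ N →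
      (({t : Fin k → ℕ | (∀ i, x i < t i ∧ t i ≤ x i + N) ∧ Exceptional δ W V e Ω t}.ncard : ℕ) : ℝ) ≤
        C * (N : ℝ) ^ (k - 1) * ∑ i, (1 + N / ((x i : ℝ) + N) ^ c) := by
  classical
  have hW := fun i => types (he i)
  choose W' hJ using hW
  have hcast : ∀ t : ℕ, (((1 / (t : ℝ) : ℝ)) : ℂ) = 1 / (t : ℂ) := fun t => by push_cast; rfl
  refine ⟨fun i t ht => ?_, fun δ W D => ?_⟩
  · have ht0 : (2 : ℝ) ≤ t := by exact_mod_cast ht
    have h0 : 0 < 1 / (t : ℝ) := by positivity
    have h1 : 1 / (t : ℝ) < 1 := by rw [div_lt_one (by linarith)]; linarith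
    refine ⟨Complex.log (1 - (((1 / (t : ℝ) : ℝ)) : ℂ)), ?_, fun j => ?_⟩
    · rw [Complex.exp_log, hcast]
      intro h
      have : (1 - 1 / (t : ℝ) : ℝ) = 0 := by exact_mod_cast h
      linarith
    · show (e i j).Y t ∈ (e i j).T _ _
      rw [T_eq ((he i).1 j), Y_eq, Yt_eq (by omega), ← hcast]
      exact YU_mem ((hJ i).q j) h0 h1
  obtain ⟨c, C, hc, -, hmain⟩ := Pool.Agent.Run7.h225.HP.tuples_poly Pool.Agent.Run7.h160.HP.PLS
    Pool.Agent.Run7.h704.HP.p_IND Pool.Agent.Run7.h824.HP.nl Pool.Agent.Run7.h160.HP.ONE Pool.Agent.Run7.h824.HP.lt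
    k δ D W r (fun i j => (e i j).n) (fun i j => (e i j).poly) W' hJ
  refine ⟨c, C, hc, ?_⟩
  intro V hVf hV Ω x N hx hN
  set S := {t : Fin k → ℕ | (∀ i, x i < t i ∧ t i ≤ x i + N) ∧ Exceptional δ W V e Ω t} with hS
  have hfin : S.Finite := by
    refine (Set.finite_Iic (fun i : Fin k => x i + N)).subset ?_
    intro t ht i
    exact (ht.1 i).2
  rw [Set.ncard_eq_toFinset_card S hfin]
  refine hmain V hV Ω x N hx hN _ fun t ht => ?_
  have ht' : t ∈ S := hfin.mem_toFinset.1 ht
  obtain ⟨hbox, P, h1, h2, h3, u, l, g, hg, h4⟩ := ht'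
  refine ⟨hbox, P, h1, h2, ?_, u, l, g, fun i => ?_, ?_⟩
  · rw [point_eq] at h3
    simp only [Y_eq, Li_eq] at h3
    exact h3
  · obtain ⟨L, hL, hX⟩ := hg i
    refine ⟨L, ?_, fun j => ?_⟩
    · rw [hcast]
      exact hL
    · rw [← T_eq ((he i).1 j), hcast]
      exact hX j
  · rw [point_eq] at h4
    exact h4

end Pool.Agent.Results.MP_1eadae_ag.HypergeometricPolylogarithms
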