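import Pool.Agent.Run7.h309.JP.KumAll
import Pool.Agent.Run7.h309.JP.Ram

/-!
# Formal periods of products of hypergeometric motives with complex reflections: injectivity of the evaluation

Let `α_1, …, α_n` be rational numbers which are not integers, `n ≥ 2`, `θ = z d/dz` and `Q(x) = ∏_j (x + α_j)`. The
hypergeometric operator `θ^n - z Q(θ)` has maximally unipotent monodromy at `z = 0`, and the monodromy at `z = 1` is a
pseudoreflection with the determinant `exp(2πi s)`, `s = ∑_j α_j`. If `2 s` is not an integer, it is a complex reflection, the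
identity component of the differential Galois group is the special linear group, and the determinant of the matrix
`Y = (θ^i f_j)` of the Frobenius solutions is `(1 - z)^(-s)`. If `s = 0`, the group is symplectic or special linear. The
periods of the fibres of the family of motives near `z = 0` are linear combinations with constant coefficients of the numbers
`(θ^i f_j)(z)`.

We consider tuples `(z_1, …, z_k)` of points and for each `z_i` a finite list of such equations, which contains complex
reflections. The formal periods of the product of these motives and of the Kummer motives of the `z_i` are, modulo the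
relations of geometric origin (the bilinear relations of the symplectic equations and the determinants), the polynomial
functions on a torsor. It depends on the `z_i`: the determinants are the powers `exp(-s_ij L_i)` with one logarithm `L_i` of
`1 - z_i` for all equations of the list. Kontsevich's conjecture predicts that the evaluation at the point given by the
actual periods is injective on the formal periods defined over number fields, unless the `z_i` are special.

To have the radicals in the field of definition we write `z_i = 1 - v_i ^ M_i`, where `M_i` is the common denominator of the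
`s_ij`. For all points `v` over all number fields `K` outside few hypersurfaces the evaluation is injective on the formal
periods of degree at most `w` and height at most `T ^ w`, where `T` is the height of `v`, the degree of `K` is at most
`w`, and `w` tends to infinity with `T`; and this holds relative to arbitrary complex constants.
-/

set_option autoImplicit false

open PowerSeries Pool.Agent.Y119.HZ Filter NumberField

namespace Pool.Agent.Results.MP_1eadae_ag.HypergeometricReflections

/-- A hypergeometric equation `θ^n f = z ∏_j (θ + α_j) f`. -/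
structure Eqn where
  n : ℕ
  α : Fin n → ℚ

/-- the dual equation (the exponents at infinity are `-α_j`) -/
def Eqn.dual (e : Eqn) : Eqn := ⟨e.n, fun j => -e.α j⟩

/-- the multiset of the fractional parts of the `α_j` -/
def Eqn.frac (e : Eqn) : Multiset ℚ := Multiset.map (fun j => Int.fract (e.α j)) Finset.univ.val

/-- the polynomial `Q = ∏_j (x + α_j)` -/
noncomputable def Eqn.poly (e : Eqn) : Polynomial ℚ := ∏ j, (Polynomial.X + Polynomial.C (e.α j))

/-- `Q(-x) = Q(x)` -/
def Eqn.Symplectic (e : Eqn) : Prop := e.poly.comp (-Polynomial.X) = e.poly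

/-- the sum of the exponents at infinity -/
def Eqn.sum (e : Eqn) : ℚ := ∑ j, e.α j

/-- the monodromy at `1` is a complex reflection (`2 s` is not an integer) -/
def Eqn.Reflection (e : Eqn) : Prop := ∀ a : ℤ, 2 * e.sum ≠ a

/-- The order is at least two, the `α_j` are not integers, and either `s = 0` and (`Q(-x) = Q(x)`, or `n` is odd, or the
fractional parts of the `α_j` and of the `-α_j` are different multisets), or `2 s` is not an integer. -/
def Eqn.Admissible (e : Eqn) : Prop :=
  2 ≤ e.n ∧ (∀ j, ∀ a : ℤ, e.α j ≠ a) ∧ ((e.sum = 0 ∧ (e.Symplectic ∨ Odd e.n ∨ e.frac ≠ e.dual.frac)) ∨ e.Reflection)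

/-- The equations of a list are admissible, and the exponents at infinity of different equations of the list, and of one of
them and of the dual of another one, are different modulo `ℤ`; at least one equation has a complex reflection. -/
def Good {r : ℕ} (e : Fin r → Eqn) : Prop :=
  (∀ j, (e j).Admissible) ∧ (∀ i j, i ≠ j → (e i).frac ≠ (e j).frac ∧ (e i).frac ≠ (e j).dual.frac) ∧
  ∃ j, (e j).Reflection

/-- the least common denominator of the sums `s_j` -/
def ram {r : ℕ} (e : Fin r → Eqn) : ℕ := Finset.univ.lcm fun j => (e j).sum.den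

/-- the power series `k + ε` in the variable `ε` -/
noncomputable def shift (k : ℕ) : PowerSeries ℚ := C (k : ℚ) + X

/-- `a_k(ε) = ∏_{l < k} Q(l + ε) / (l + 1 + ε)^n`. The series `∑_k a_k(ε) z^(k + ε)` solves the equation
`(θ^n - z Q(θ)) f = ε^n z^ε`, hence its coefficients `f_j` at `ε^j` with `j < n` are solutions of the homogeneous
equation. -/
noncomputable def Eqn.frob (e : Eqn) (k : ℕ) : PowerSeries ℚ :=
  ∏ l ∈ Finset.range k, (Polynomial.aeval (shift l) e.poly * ((shift (l + 1))⁻¹) ^ e.n)

/-- The matrix with the entries `(θ^i f_j)(z)`, where `f_j(z)` is the coefficient of `ε^j` in the series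
`∑_k a_k(ε) z^(k + ε)`, `z^ε = ∑_l (log z)^l ε^l / l!` (principal branch of the logarithm). -/
noncomputable def Eqn.Y (e : Eqn) (z : ℂ) : Matrix (Fin e.n) (Fin e.n) ℂ :=
  Matrix.of fun i j => ∑ l ∈ Finset.range ((j : ℕ) + 1), Complex.log z ^ l / (l.factorial : ℂ) *
    ∑' k : ℕ, ((coeff ((j : ℕ) - l) (shift k ^ (i : ℕ) * e.frob k) : ℚ) : ℂ) * z ^ k

/-- The matrix of the intersection form: the entry `(i, j)` is `(-1)^i q_{i+j+1-n}` for `i + j + 1 ≥ n` and `0`
otherwise, where `q_l` are the coefficients of `Q`. -/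
noncomputable def Eqn.J (e : Eqn) : Matrix (Fin e.n) (Fin e.n) ℂ :=
  Matrix.of fun i j => if e.n ≤ (i : ℕ) + j + 1 then (((-1) ^ (i : ℕ) * e.poly.coeff (i + j + 1 - e.n) : ℚ) : ℂ) else 0

/-- The torsor of the equation for a logarithm `L` of `1 - z`: the matrices `X` with `det X = exp(-s L)`, and with
`Xᵀ J X = J` if `Q(-x) = Q(x)`. -/
def Eqn.T (e : Eqn) (L : ℂ) : Set (Matrix (Fin e.n) (Fin e.n) ℂ) :=
  {X | X.det = Complex.exp (-((e.sum : ℚ) : ℂ) * L) ∧ (e.Symplectic → X.transpose * e.J * X = e.J)}

/-- the variables: for each `i` one for the logarithm and one for each entry of the matrices -/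
abbrev Var {k : ℕ} {r : Fin k → ℕ} (e : ∀ i, Fin (r i) → Eqn) : Type :=
  Σ i : Fin k, Option (Σ j : Fin (r i), Fin (e i j).n × Fin (e i j).n)

/-- the point with the coordinates `l_i` and the entries of the matrices `X_ij` -/
def point {k : ℕ} {r : Fin k → ℕ} {e : ∀ i, Fin (r i) → Eqn} (l : Fin k → ℂ)
    (X : ∀ i j, Matrix (Fin (e i j).n) (Fin (e i j).n) ℂ) : Var e → ℂ
  | ⟨i, none⟩ => l i
  | ⟨i, some ⟨j, p⟩⟩ => X i j p.1 p.2

/-- the `v` with `|arg v| < π / M` such that `z = 1 - v ^ M` is in the unit disc and not a real number `≤ 0` -/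
def Domain (M : ℕ) : Set ℂ := {v | (‖1 - v ^ M‖ < 1 ∧ 1 - v ^ M ∈ Complex.slitPlane) ∧ |v.arg| < Real.pi / M}

/-- the `v` with `|arg v| < π / M` such that `z = 1 - v ^ M` is in the unit disc, at distance at least `1 / w` from the unit
circle and from the real numbers `≤ 0` -/
def Inner (M w : ℕ) : Set ℂ :=
  {v | (‖1 - v ^ M‖ + 1 / w ≤ 1 ∧ ∀ t : ℝ, t ≤ 0 → (1 : ℝ) / w ≤ ‖1 - v ^ M - t‖) ∧ |v.arg| < Real.pi / M}

/-- the torsor of a list of equations at `v`: the tuples of matrices `X_j` in the torsors of the equations for the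
logarithm `L = M log v` of `1 - z = v ^ M` -/
def Torsor {r : ℕ} (e : Fin r → Eqn) (v : ℂ) : Set (∀ j, Matrix (Fin (e j).n) (Fin (e j).n) ℂ) :=
  {X | ∀ j, X j ∈ (e j).T (ram e * Complex.log v)}

/-- The polynomials of degree at most `w` in each variable, with coefficients of the form `∑_a ξ_a φ(c_a)` with integers
`c_a` of `K` all conjugates of which have absolute value at most `T ^ w`. -/
def Relations {k : ℕ} {r : Fin k → ℕ} (e : ∀ i, Fin (r i) → Eqn) (w : ℕ) (K : Type) [Field K] [NumberField K]
    (φ : K →+* ℂ) (ξ : Fin w → ℂ) (T : ℝ) : Set (MvPolynomial (Var e) ℂ) :=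
  {P | (∀ v, P.degreeOf v ≤ w) ∧ ∀ s, ∃ c : Fin w → 𝓞 K, (∀ a (ψ : K →+* ℂ), ‖ψ (c a : K)‖ ≤ T ^ w) ∧
    P.coeff s = ∑ a, ξ a * φ (c a : K)}

/-- The points `s` of `K^k` of height at most `T` (quotients of integers all conjugates of which have absolute value at most
`T`) with all `v_i = φ(s_i)` in `Inner M_i w`, such that the evaluation of the formal periods is not injective on
`Relations`: some polynomial in `Relations` vanishes at the numbers `log z_i` and the entries of the matrices
`Y_ij(z_i) Ω_ij`, `z_i = 1 - v_i ^ M_i`, but not on the set of the points with arbitrary coordinates `l_i` and the matrices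
`X_ij Ω_ij` with `(X_ij)_j` in the torsor of the list `e_i` at `v_i`. -/
def Exceptional {k : ℕ} {r : Fin k → ℕ} (e : ∀ i, Fin (r i) → Eqn) (Ω : ∀ i j, Matrix (Fin (e i j).n) (Fin (e i j).n) ℂ)
    (w : ℕ) (K : Type) [Field K] [NumberField K] (φ : K →+* ℂ) (ξ : Fin w → ℂ) (T : ℝ) : Set (Fin k → K) :=
  {s | (∀ i, Y120.HtLe K T (s i)) ∧ (∀ i, φ (s i) ∈ Inner (ram (e i)) w) ∧ ∃ P ∈ Relations e w K φ ξ T,
    MvPolynomial.eval (point (fun i => Complex.log (1 - φ (s i) ^ ram (e i)))
      fun i j => (e i j).Y (1 - φ (s i) ^ ram (e i)) * Ω i j) P = 0 ∧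
    ∃ (l : Fin k → ℂ) (X : ∀ i j, Matrix (Fin (e i j).n) (Fin (e i j).n) ℂ), (∀ i, X i ∈ Torsor (e i) (φ (s i))) ∧
      MvPolynomial.eval (point l fun i j => X i j * Ω i j) P ≠ 0}

theorem frob_eq (e : Eqn) (k : ℕ) : e.frob k = Pool.Agent.Y119.HY.aq e.n e.poly k := rfl

theorem J_eq (e : Eqn) : e.J = Pool.Agent.Y119.HY.cm (Pool.Agent.Y119.HY.Jm e.n e.poly) := by
  ext i j
  rw [Pool.Agent.Y119.HY.cm_apply]
  unfold Eqn.J Pool.Agent.Y119.HY.Jm
  rw [Matrix.of_apply, Matrix.of_apply]
  split_ifs
  · rfl
  · simp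

theorem Y_eq (e : Eqn) (z : ℂ) : e.Y z = Pool.Agent.Y119.HY.Yf (Pool.Agent.Y119.HY.cm (Pool.Agent.Y119.HY.Am e.n))
    (Pool.Agent.Y119.HY.Hc e.n e.poly) z := by
  ext i j
  unfold Eqn.Y Pool.Agent.Y119.HY.Yf
  rw [Matrix.of_apply, Matrix.mul_apply]
  have hE : ∀ c : Fin e.n, Pool.Agent.Y119.HY.E (Pool.Agent.Y119.HY.cm (Pool.Agent.Y119.HY.Am e.n))
      (Complex.log z) c j = ∑ l ∈ Finset.range e.n,
        if (j : ℕ) = c + l then (Complex.log z ^ l / (l.factorial : ℂ)) else 0 := by
    intro c
    unfold Pool.Agent.Y119.HY.E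
    rw [Matrix.sum_apply]
    refine Finset.sum_congr rfl fun l _ => ?_
    rw [Matrix.smul_apply, ← Pool.Agent.Y119.HY.cm_pow, Pool.Agent.Y119.HY.cm_apply, Pool.Agent.Y119.HY.Am_pow, smul_eq_mul]
    split_ifs
    · push_cast
      ring
    · simp
  simp only [hE, Finset.mul_sum]
  rw [Finset.sum_comm]
  have hsub : Finset.range ((j : ℕ) + 1) ⊆ Finset.range e.n := by
    intro l hl
    rw [Finset.mem_range] at hl ⊢
    have := j.2
    omega
  refine Finset.sum_subset_zero_on_sdiff hsub (fun l hl => ?_) fun l hl => ?_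
  · rw [Finset.mem_sdiff, Finset.mem_range, Finset.mem_range] at hl
    refine Finset.sum_eq_zero fun c _ => ?_
    rw [if_neg (by omega), mul_zero]
  · rw [Finset.mem_range] at hl
    have hj := j.2
    rw [Finset.sum_eq_single (⟨(j : ℕ) - l, by omega⟩ : Fin e.n)]
    · rw [if_pos (by simp only; omega), mul_comm]
      congr 1
    · intro c _ hc
      rw [if_neg, mul_zero]
      intro h
      apply hc
      apply Fin.ext
      simp only
      omega
    · intro h
      exact absurd (Finset.mem_univ _) h

theorem point_eq {k : ℕ} {r : Fin k → ℕ} {e : ∀ i, Fin (r i) → Eqn} (l : Fin k → ℂ)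
    (X : ∀ i j, Matrix (Fin (e i j).n) (Fin (e i j).n) ℂ) :
    point l X = Run7.h309.JP.pa (n := fun i j => (e i j).n) l X := by
  funext v
  obtain ⟨i, _ | ⟨j, p⟩⟩ := v
  · rfl
  · rfl

theorem types {r : ℕ} {e : Fin r → Eqn} (he : Good e) :
    ∃ W, Pool.Agent.Run7.h225.HG.JT (fun j => (e j).n) (fun j => (e j).poly) W := by
  refine Pool.Agent.Run7.h225.HG.JT_QA (n := fun j => (e j).n) (α := fun j => (e j).α) (fun j => (he.1 j).1)
    (fun j => (he.1 j).2.1) (fun j => ?_) fun i j hij => he.2.1 i j hij
  exact (he.1 j).2.2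

theorem coeff_sum {e : Eqn} (he : e.Admissible) : e.poly.coeff (e.n - 1) = e.sum :=
  Pool.Agent.Run7.h225.HG.QA_coeff (by have := he.1; omega) e.α

theorem T_eq {e : Eqn} (he : e.Admissible) (L : ℂ) : e.T L = Pool.Agent.Run7.h225.HG.TJ e.n e.poly L := by
  have hQ := Pool.Agent.Run7.h225.HG.QG_QA he.1 (Pool.Agent.Run7.h225.HG.nonint he.2.1)
  ext X
  unfold Eqn.T Pool.Agent.Run7.h225.HG.TJ
  rw [coeff_sum he, J_eq]
  refine and_congr_right fun _ => ⟨fun h h2 => h ?_, fun h h2 => h ?_⟩
  · exact Pool.Agent.Run7.h225.HG.even_of_QD h2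
  · exact Pool.Agent.Run7.h225.HG.QD_of_even hQ h2

theorem am {r : ℕ} {e : Fin r → Eqn} (he : Good e) :
    Run7.h309.JP.AM (fun j => (e j).n) (fun j => (e j).poly) (ram e) := by
  have h1 : ∀ j, (e j).poly.coeff ((e j).n - 1) = (e j).sum := fun j => coeff_sum (he.1 j)
  refine ⟨Run7.h309.JP.lcd_pos fun j => (e j).sum, fun j => ?_, ?_⟩
  · rw [h1]
    exact Run7.h309.JP.lcd_int (fun j => (e j).sum) j
  · simp only [h1]
    exact Run7.h309.JP.lcd_comb fun j => (e j).sum

theorem domain_eq {M : ℕ} (hM : 0 < M) {v : ℂ} : v ∈ Domain M ↔ v ∈ Run7.h309.JP.VM M := by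
  refine ⟨fun h => ?_, fun h => ⟨h.1, h.2.2⟩⟩
  have hM' : (1 : ℝ) ≤ M := by exact_mod_cast hM
  refine ⟨h.1, ?_, h.2⟩
  rw [Complex.mem_slitPlane_iff_arg]
  refine ⟨fun h1 => ?_, fun h1 => ?_⟩
  · have h2 := h.2
    rw [h1, abs_of_pos Real.pi_pos] at h2
    exact absurd h2 (not_lt.2 (div_le_self Real.pi_pos.le hM'))
  · have h2 := h.1.1
    rw [h1, zero_pow hM.ne', sub_zero, norm_one] at h2
    exact lt_irrefl _ h2

/-- Let `e_i`, `1 ≤ i ≤ k`, `k ≥ 1`, be good lists of hypergeometric equations `e_ij` with complex reflections, and `M_i` the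
common denominators of the sums `s_ij` of their exponents at infinity. For `v` in the domain of the list `e_i` the tuple
`(Y_ij(1 - v ^ M_i))_j` lies in the torsor of the list at `v`, and:

* every polynomial relation with complex coefficients between the functions `v_i`, `log z_i` and the entries of all the
  `Y_ij(z_i)`, `z_i = 1 - v_i ^ M_i`, holds at all points `v` of the domain identically on the product of `ℂ^k` and of the
  torsors;
* let `Ω_ij` be complex matrices. There is `ω → ∞` such that for all large `T`, all number fields `K` of degree at most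
  `ω(T)`, all embeddings `φ` of `K` in `ℂ` and all complex numbers `ξ_a`, `a < ω(T)`: for all points `s` of `K^k` of height
  at most `T` such that the `z_i`, `v_i = φ(s_i)`, are at distance at least `1 / ω(T)` from the unit circle and from the
  negative axis, except for those on at most `T^(1/ω(T))` hypersurfaces of degree at most `T^(1/ω(T))`, the evaluation is
  injective on the formal periods of degree at most `ω(T)` in each variable, with coefficients `∑_a ξ_a c_a`, `c_a` integers
  of `K` of size at most `T^ω(T)`: every such relation between the numbers `log z_i` and the entries of the matrices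
  `Y_ij(z_i) Ω_ij` holds identically on the set of the `(l, X_ij Ω_ij)`, `l` in `ℂ^k`, `(X_ij)_j` in the torsor at `v_i`.
  There are at most `T^(1/ω(T)) M^(k-1)` exceptional points, `M` being the number of elements of `K` of height at most
  `T`. -/
theorem result (k : ℕ) (hk : 1 ≤ k) (r : Fin k → ℕ) (e : ∀ i, Fin (r i) → Eqn) (he : ∀ i, Good (e i)) :
    (∀ i, ∀ v ∈ Domain (ram (e i)), (fun j => (e i j).Y (1 - v ^ ram (e i))) ∈ Torsor (e i) v) ∧
    (∀ P : MvPolynomial (Var e ⊕ Fin k) ℂ,
      (∀ v : Fin k → ℂ, (∀ i, v i ∈ Domain (ram (e i))) →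
        MvPolynomial.eval (Sum.elim (point (fun i => Complex.log (1 - v i ^ ram (e i)))
          fun i j => (e i j).Y (1 - v i ^ ram (e i))) v) P = 0) →
      ∀ v l : Fin k → ℂ, (∀ i, v i ∈ Domain (ram (e i))) →
        ∀ X : ∀ i j, Matrix (Fin (e i j).n) (Fin (e i j).n) ℂ, (∀ i, X i ∈ Torsor (e i) (v i)) →
        MvPolynomial.eval (Sum.elim (point l X) v) P = 0) ∧
    ∀ Ω : ∀ i j, Matrix (Fin (e i j).n) (Fin (e i j).n) ℂ,
      ∃ (ω : ℝ → ℕ) (T₀ : ℝ), Tendsto ω atTop atTop ∧ Monotone ω ∧ ∀ T, T₀ ≤ T → 0 < ω T ∧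
        ∀ (K : Type) [Field K] [NumberField K], Module.finrank ℚ K ≤ ω T → ∀ (φ : K →+* ℂ) (ξ : Fin (ω T) → ℂ),
          Y124.Cov ⌊T ^ ((ω T : ℝ)⁻¹)⌋₊ ⌊T ^ ((ω T : ℝ)⁻¹)⌋₊
            ((fun (s : Fin k → K) j => φ (s j)) '' Exceptional e Ω (ω T) K φ ξ T) ∧
          (Exceptional e Ω (ω T) K φ ξ T).Finite ∧
          ((Exceptional e Ω (ω T) K φ ξ T).ncard : ℝ) ≤
            T ^ ((ω T : ℝ)⁻¹) * ({x : K | Y120.HtLe K T x}.ncard : ℝ) ^ (k - 1) := by
  classical
  choose W hW using fun i => types (he i)
  have hM := fun i => am (he i)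
  have hMp : ∀ i, 0 < ram (e i) := fun i => (hM i).pos
  refine ⟨fun i v hv j => ?_, fun P hP v l hv X hX => ?_, fun Ω => ?_⟩
  · rw [domain_eq (hMp i)] at hv
    show (e i j).Y (1 - v ^ ram (e i)) ∈ (e i j).T (ram (e i) * Complex.log v)
    rw [T_eq ((he i).1 j), Y_eq]
    have h2 : (ram (e i) : ℂ) * Complex.log v = Complex.log (1 - (1 - v ^ ram (e i))) := by
      rw [sub_sub_cancel, Run7.h309.JP.log_pow_M (hMp i) (Complex.slitPlane_ne_zero hv.2.1) hv.2.2]
    rw [h2]
    exact Run7.h309.JP.TJ_mul (Run7.h309.JP.Hf_mem ((hW i).q j) hv.1.1) (Run7.h309.JP.E_GJ ((hW i).q j) _)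
  · have h1 := Run7.h309.JP.all_functions_kum (n := fun i j => (e i j).n) (Q := fun i j => (e i j).poly) (W := W)
      (M := fun i => ram (e i)) (fun i j => 1) hW hM P (fun v hv => by
        have h2 := hP v fun i => (domain_eq (hMp i)).2 (hv i)
        rw [point_eq] at h2
        simp only [mul_one, ← Y_eq]
        exact h2) v l (fun i => (domain_eq (hMp i)).1 (hv i)) X fun i j => by
          rw [← T_eq ((he i).1 j)]
          exact hX i j
    rw [point_eq]
    simp only [mul_one] at h1
    exact h1
  · obtain ⟨ω, T₀, h1, h2, h3⟩ := Run7.h309.JP.all_points_kum (n := fun i j => (e i j).n)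
      (Q := fun i j => (e i j).poly) (W := W) (M := fun i => ram (e i)) Ω hk hW hM
    refine ⟨ω, T₀, h1, h2, fun T hT => ⟨(h3 T hT).1, ?_⟩⟩
    intro K _ _ hK φ ξ
    have h4 := (h3 T hT).2 K hK φ ξ
    have h5 : Exceptional e Ω (ω T) K φ ξ T =
        Run7.h309.JP.ExcV (n := fun i j => (e i j).n) Ω (fun i j => (e i j).poly) (fun i => ram (e i)) (ω T) K φ ξ T := by
      ext s
      unfold Exceptional Run7.h309.JP.ExcV
      simp only [Set.mem_ofPred_eq, point_eq, Y_eq]
      refine and_congr_right fun _ => and_congr_right fun _ => exists_congr fun P => and_congr Iff.rfl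
        (and_congr Iff.rfl (exists_congr fun l => exists_congr fun X => and_congr_left fun _ => ?_))
      refine forall_congr' fun i => ?_
      unfold Torsor
      refine forall_congr' fun j => ?_
      rw [T_eq ((he i).1 j)]
    rw [h5]
    exact h4

end Pool.Agent.Results.MP_1eadae_ag.HypergeometricReflections
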